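import Mathlib
import Pool.Agent.R323.NA.A

/-!
# Integer polynomials with at least `k` values with a small radical, `k ≤ d`
-/

set_option autoImplicit false

namespace Pool.Agent.H673.FB

open Pool.Agent.R323.SE Pool.Agent.R323.NA

/-- a small integer at which the value is different from the values at `k` given points -/
theorem exists_base {d k : ℕ} (hd : 1 ≤ d) {f : Polynomial ℤ} (hf : f.natDegree = d)
    (x : Fin k → ℚ) : ∃ s ∈ Finset.range (k * d + 1), ∀ i,
      (f.map (Int.castRingHom ℚ)).eval (s : ℚ) ≠ (f.map (Int.castRingHom ℚ)).eval (x i) := by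
  classical
  by_contra hcon
  push Not at hcon
  obtain ⟨g, hg⟩ : ∃ g, g = f.map (Int.castRingHom ℚ) := ⟨_, rfl⟩
  rw [← hg] at hcon
  have hgd : g.natDegree = d := by
    rw [hg, Polynomial.natDegree_map_eq_of_injective (RingHom.injective_int _), hf]
  have h1 : Finset.range (k * d + 1) ⊆ (Finset.univ : Finset (Fin k)).biUnion fun i =>
      (Finset.range (k * d + 1)).filter fun s : ℕ => g.eval (s : ℚ) = g.eval (x i) := by
    intro s hs
    obtain ⟨i, hi⟩ := hcon s hs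
    exact Finset.mem_biUnion.2 ⟨i, Finset.mem_univ _, Finset.mem_filter.2 ⟨hs, hi⟩⟩
  have h2 : ∀ i : Fin k, ((Finset.range (k * d + 1)).filter
      fun s : ℕ => g.eval (s : ℚ) = g.eval (x i)).card ≤ d := by
    intro i
    obtain ⟨q, hq⟩ : ∃ q, q = g - Polynomial.C (g.eval (x i)) := ⟨_, rfl⟩
    have hqd : q.natDegree = d := by
      rw [hq, Polynomial.natDegree_sub_C, hgd]
    have hq0 : q ≠ 0 := by
      rintro rfl
      rw [Polynomial.natDegree_zero] at hqd
      omega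
    calc ((Finset.range (k * d + 1)).filter
          fun s : ℕ => g.eval (s : ℚ) = g.eval (x i)).card ≤ q.roots.toFinset.card := by
          refine Finset.card_le_card_of_injOn (fun s : ℕ => (s : ℚ)) ?_ ?_
          · intro s hs
            have hs' := (Finset.mem_filter.1 hs).2
            refine Finset.mem_coe.2 (Multiset.mem_toFinset.2 ((Polynomial.mem_roots hq0).2 ?_))
            rw [Polynomial.IsRoot, hq, Polynomial.eval_sub, Polynomial.eval_C, hs', sub_self]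
          · intro s _ t _ h
            exact Nat.cast_injective (R := ℚ) h
      _ ≤ q.roots.card := Multiset.toFinset_card_le _
      _ ≤ q.natDegree := Polynomial.card_roots' _
      _ = d := hqd
  have h3 := (Finset.card_le_card h1).trans (Finset.card_biUnion_le.trans
    (Finset.sum_le_sum fun i _ => h2 i))
  rw [Finset.card_range, Finset.sum_const, Finset.card_univ, Fintype.card_fin,
    smul_eq_mul] at h3
  omega

/-- a polynomial is determined by its coefficients above `k` and its values at `k + 1` points -/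
theorem eq_of_data {k : ℕ} {f g : Polynomial ℤ} (hc : ∀ j, k < j → f.coeff j = g.coeff j)
    (y : Fin (k + 1) → ℚ) (hy : Function.Injective y)
    (h : ∀ i, (f.map (Int.castRingHom ℚ)).eval (y i) = (g.map (Int.castRingHom ℚ)).eval (y i)) :
    f = g := by
  have h1 : (f - g).natDegree ≤ k := by
    rw [Polynomial.natDegree_le_iff_coeff_eq_zero]
    intro j hj
    rw [Polynomial.coeff_sub, hc j hj, sub_self]
  have h2 : ((f - g).map (Int.castRingHom ℚ)) = 0 := by
    refine Polynomial.eq_zero_of_natDegree_lt_card_of_eval_eq_zero _ hy (fun i => ?_) ?_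
    · rw [Polynomial.map_sub, Polynomial.eval_sub, h i, sub_self]
    · rw [Polynomial.natDegree_map_eq_of_injective (RingHom.injective_int _), Fintype.card_fin]
      omega
  have h3 : f - g = 0 := by
    apply map_inj
    rw [h2, Polynomial.map_zero]
  exact sub_eq_zero.1 h3

/-- the number of the polynomials with given data -/
theorem card_fib {d k : ℕ} (S : Finset (Polynomial ℤ)) (x : Polynomial ℤ → Fin k → ℚ) (s : ℕ)
    (w : ℤ) (cc bb : Fin k → ℤ)
    (hS : ∀ f ∈ S, f.natDegree = d ∧ Function.Injective (x f) ∧ homValue f s 1 = w ∧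
      (∀ i, homValue f (x f i).num (x f i).den = cc i) ∧ (∀ i, ((x f i).den : ℤ) = bb i))
    (hco : ∀ f ∈ S, ∀ g ∈ S, ∀ j, k < j → f.coeff j = g.coeff j)
    (hne : ∀ i, cc i - w * bb i ^ d ≠ 0) (hb : ∀ i, bb i ≠ 0) :
    S.card ≤ ∏ i : Fin k, 2 * (cc i - w * bb i ^ d).natAbs.divisors.card := by
  classical
  have h1 : S.card ≤ (Fintype.piFinset fun i : Fin k =>
      pm (cc i - w * bb i ^ d).natAbs.divisors).card := by
    refine Finset.card_le_card_of_injOn (fun f i => (x f i).num - s * bb i) ?_ ?_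
    · intro f hf
      obtain ⟨h2, -, h3, h4, h5⟩ := hS f hf
      refine Finset.mem_coe.2 (Fintype.mem_piFinset.2 fun i => mem_pm ?_)
      rw [Nat.mem_divisors]
      refine ⟨Int.natAbs_dvd_natAbs.2 ?_, Int.natAbs_ne_zero.2 (hne i)⟩
      have h6 := dvd_K f (x f i).num (x f i).den s 1
      rw [h2, h3, h4, h5, one_pow, mul_one, mul_one] at h6
      exact h6
    · intro f hf g hg hfg
      obtain ⟨h2, h3, h4, h5, h6⟩ := hS f hf
      obtain ⟨h2', h3', h4', h5', h6'⟩ := hS g hg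
      have hx : x f = x g := by
        funext i
        have h7 := congrFun hfg i
        simp only at h7
        have h8 : (x f i).num = (x g i).num := by linarith
        have h9 : (x f i).den = (x g i).den := by
          have : ((x f i).den : ℤ) = ((x g i).den : ℤ) := by rw [h6, h6']
          exact_mod_cast this
        exact Rat.ext h8 h9
      have key : ∀ i, (f.map (Int.castRingHom ℚ)).eval (x f i) =
          (g.map (Int.castRingHom ℚ)).eval (x f i) := by
        intro i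
        have e0 : ((x f i).den : ℤ) ≠ 0 := by rw [h6]; exact hb i
        have e1 := homValue_eq f (x f i).num e0
        have e2 := homValue_eq g (x f i).num e0
        rw [h5, h2, Int.cast_natCast, Rat.num_div_den] at e1
        have e3 : homValue g (x f i).num (x f i).den = cc i := by
          rw [hx]
          exact h5' i
        rw [e3, h2', Int.cast_natCast, Rat.num_div_den, e1] at e2
        exact mul_left_cancel₀ (pow_ne_zero _ (by exact_mod_cast (x f i).den_ne_zero)) e2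
      have key2 : ∀ g' : Polynomial ℤ, homValue g' s 1 = w →
          (g'.map (Int.castRingHom ℚ)).eval (s : ℚ) = w := by
        intro g' hg'
        have e1 := homValue_eq g' (s : ℤ) (b := 1) one_ne_zero
        rw [hg'] at e1
        simpa using e1.symm
      refine eq_of_data (hco f hf g hg) (Fin.cons (s : ℚ) (x f)) ?_ (fun i => ?_)
      · rw [Fin.cons_injective_iff]
        refine ⟨?_, h3⟩
        rintro ⟨i, hi⟩
        apply hne i
        have e0 : ((x f i).den : ℤ) ≠ 0 := by rw [h6]; exact hb i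
        have e1 := homValue_eq f (x f i).num e0
        have e2 : ((x f i).den : ℚ) = (bb i : ℚ) := by exact_mod_cast h6 i
        rw [h5, h2, Int.cast_natCast, Rat.num_div_den, e2, hi, key2 f h4] at e1
        have e3 : (cc i : ℚ) = ((w * bb i ^ d : ℤ) : ℚ) := by
          rw [e1]
          push_cast
          ring
        rw [sub_eq_zero]
        exact_mod_cast e3
      · refine Fin.cases ?_ (fun i => ?_) i
        · rw [Fin.cons_zero, key2 f h4, key2 g h4']
        · rw [Fin.cons_succ]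
          exact key i
  refine h1.trans ?_
  rw [Fintype.card_piFinset]
  exact Finset.prod_le_prod (fun _ _ => Nat.zero_le _) fun i _ => card_pm _

/-- the value at a small integer -/
theorem value_le {d k X s : ℕ} {f : Polynomial ℤ} (hf : f.natDegree = d)
    (h : ∀ i, |f.coeff i| ≤ (X : ℤ)) (hs : s ∈ Finset.range (k * d + 1)) :
    |homValue f s 1| ≤ (((d + 1) * (k * d + 1) ^ d * X : ℕ) : ℤ) := by
  have hs' := Finset.mem_range.1 hs
  unfold homValue
  rw [hf]
  calc |∑ i ∈ Finset.range (d + 1), f.coeff i * (s : ℤ) ^ i * 1 ^ (d - i)|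
      ≤ ∑ i ∈ Finset.range (d + 1), |f.coeff i * (s : ℤ) ^ i * 1 ^ (d - i)| :=
        Finset.abs_sum_le_sum_abs _ _
    _ ≤ ∑ _i ∈ Finset.range (d + 1), (X : ℤ) * ((k * d + 1 : ℕ) : ℤ) ^ d := by
        refine Finset.sum_le_sum fun i hi => ?_
        have hi' := Finset.mem_range.1 hi
        rw [one_pow, mul_one, abs_mul, abs_pow, Nat.abs_cast]
        refine mul_le_mul (h i) ?_ (by positivity) (by positivity)
        have e1 : s ^ i ≤ (k * d + 1) ^ d :=
          (Nat.pow_le_pow_left hs'.le i).trans (Nat.pow_le_pow_right (by omega) (by omega))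
        exact_mod_cast e1
    _ = _ := by
        rw [Finset.sum_const, Finset.card_range, nsmul_eq_mul]
        push_cast
        ring

/-- the pairs of nonzero integers at most `Z` whose product has a radical at most `R` -/
noncomputable def PP (Z R : ℕ) : Finset (ℤ × ℤ) :=
  (Finset.Icc 1 R).biUnion fun B => SM Z B ×ˢ SM Z B

theorem mem_PP {Z R : ℕ} {v b : ℤ} (hv : v ≠ 0) (hb : b ≠ 0) (hvZ : |v| ≤ (Z : ℤ))
    (hbZ : |b| ≤ (Z : ℤ)) (h : rad (v.natAbs * b.natAbs) ≤ R) : (v, b) ∈ PP Z R := by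
  have h0 : v.natAbs * b.natAbs ≠ 0 :=
    mul_ne_zero (Int.natAbs_ne_zero.2 hv) (Int.natAbs_ne_zero.2 hb)
  have key : ∀ p : ℕ, p.Prime → p ∣ v.natAbs * b.natAbs → p ∣ rad (v.natAbs * b.natAbs) := by
    intro p hp hpd
    unfold rad
    exact Finset.dvd_prod_of_mem _ (Nat.mem_primeFactors.2 ⟨hp, hpd, h0⟩)
  unfold PP
  refine Finset.mem_biUnion.2 ⟨rad (v.natAbs * b.natAbs), Finset.mem_Icc.2 ⟨rad_pos _, h⟩,
    Finset.mem_product.2 ⟨mem_SM.2 ⟨hvZ, hv, fun p hp hpv => key p hp ?_⟩,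
    mem_SM.2 ⟨hbZ, hb, fun p hp hpb => key p hp ?_⟩⟩⟩
  · exact (Int.natCast_dvd.1 hpv).mul_right _
  · exact (Int.natCast_dvd.1 hpb).mul_left _

/-- the number of these pairs -/
theorem card_PP (d A : ℕ) (θ κ : ℝ) (hθ : 0 ≤ θ) (hκ : 0 < κ) : ∃ C : ℝ, 0 < C ∧ ∀ X : ℕ, 1 ≤ X →
    ((PP ((d + 1) * (X ^ A) ^ (d + 1)) ⌊(X : ℝ) ^ θ⌋₊).card : ℝ) ≤ C * (X : ℝ) ^ (θ + κ) := by
  obtain ⟨E, hE⟩ : ∃ E : ℝ, E = (A : ℝ) * (d + 1) + θ + 1 := ⟨_, rfl⟩
  have hE0 : 0 < E := by
    rw [hE]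
    positivity
  obtain ⟨η, hη⟩ : ∃ η : ℝ, η = κ / (2 * E) := ⟨_, rfl⟩
  have hη0 : 0 < η := by
    rw [hη]
    positivity
  obtain ⟨C, hC, h⟩ := card_SM η hη0
  refine ⟨(C * ((d : ℝ) + 1) ^ η) ^ 2, by positivity, fun X hX => ?_⟩
  have hXR : (1 : ℝ) ≤ X := by exact_mod_cast hX
  have hX0 : (0 : ℝ) < X := by linarith
  obtain ⟨Z, hZ⟩ : ∃ Z : ℕ, Z = (d + 1) * (X ^ A) ^ (d + 1) := ⟨_, rfl⟩
  obtain ⟨R, hR⟩ : ∃ R : ℕ, R = ⌊(X : ℝ) ^ θ⌋₊ := ⟨_, rfl⟩
  rw [← hZ, ← hR]
  have hZ1 : 1 ≤ Z := by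
    rw [hZ]
    exact Nat.mul_pos (by omega) (pow_pos (pow_pos (by omega) _) _)
  have hRX : (R : ℝ) ≤ (X : ℝ) ^ θ := by
    rw [hR]
    exact Nat.floor_le (by positivity)
  have hSM : ∀ B ∈ Finset.Icc 1 R, ((SM Z B ×ˢ SM Z B).card : ℝ) ≤
      (C * ((d : ℝ) + 1) ^ η) ^ 2 * (X : ℝ) ^ κ := by
    intro B hB
    obtain ⟨hB1, hB2⟩ := Finset.mem_Icc.1 hB
    have hBX : (B : ℝ) ≤ (X : ℝ) ^ θ := (Nat.cast_le.2 hB2).trans hRX
    have h1 : ((SM Z B).card : ℝ) ≤ C * ((d : ℝ) + 1) ^ η * (X : ℝ) ^ (κ / 2) := by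
      refine (h Z B hZ1 hB1).trans ?_
      rw [mul_assoc]
      refine mul_le_mul_of_nonneg_left ?_ hC.le
      have e1 : (Z : ℝ) ^ η = ((d : ℝ) + 1) ^ η * (X : ℝ) ^ ((A : ℝ) * (d + 1) * η) := by
        rw [hZ]
        push_cast
        rw [Real.mul_rpow (by positivity) (by positivity), ← pow_mul, ← Real.rpow_natCast,
          ← Real.rpow_mul hX0.le]
        congr 2
        push_cast
        ring
      have e2 : (B : ℝ) ^ η ≤ (X : ℝ) ^ (θ * η) := by
        rw [Real.rpow_mul hX0.le]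
        exact Real.rpow_le_rpow (Nat.cast_nonneg _) hBX hη0.le
      rw [e1, mul_assoc]
      refine mul_le_mul_of_nonneg_left ?_ (by positivity)
      calc (X : ℝ) ^ ((A : ℝ) * (d + 1) * η) * (B : ℝ) ^ η
          ≤ (X : ℝ) ^ ((A : ℝ) * (d + 1) * η) * (X : ℝ) ^ (θ * η) :=
            mul_le_mul_of_nonneg_left e2 (by positivity)
        _ = (X : ℝ) ^ ((A : ℝ) * (d + 1) * η + θ * η) := by rw [← Real.rpow_add hX0]
        _ ≤ (X : ℝ) ^ (κ / 2) := by
            refine Real.rpow_le_rpow_of_exponent_le hXR ?_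
            have e3 : E * η = κ / 2 := by
              rw [hη]
              field_simp
            rw [← e3, hE]
            nlinarith
    rw [Finset.card_product]
    push_cast
    have e4 : (X : ℝ) ^ κ = (X : ℝ) ^ (κ / 2) * (X : ℝ) ^ (κ / 2) := by
      rw [← Real.rpow_add hX0]
      congr 1
      ring
    calc ((SM Z B).card : ℝ) * ((SM Z B).card : ℝ)
        ≤ (C * ((d : ℝ) + 1) ^ η * (X : ℝ) ^ (κ / 2)) *
          (C * ((d : ℝ) + 1) ^ η * (X : ℝ) ^ (κ / 2)) :=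
          mul_le_mul h1 h1 (Nat.cast_nonneg _) (by positivity)
      _ = _ := by
          rw [e4]
          ring
  calc ((PP Z R).card : ℝ) ≤ ((∑ B ∈ Finset.Icc 1 R, (SM Z B ×ˢ SM Z B).card : ℕ) : ℝ) :=
        Nat.cast_le.2 Finset.card_biUnion_le
    _ = ∑ B ∈ Finset.Icc 1 R, ((SM Z B ×ˢ SM Z B).card : ℝ) := by push_cast; rfl
    _ ≤ ∑ _B ∈ Finset.Icc 1 R, (C * ((d : ℝ) + 1) ^ η) ^ 2 * (X : ℝ) ^ κ :=
        Finset.sum_le_sum hSM
    _ = (R : ℝ) * ((C * ((d : ℝ) + 1) ^ η) ^ 2 * (X : ℝ) ^ κ) := by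
        rw [Finset.sum_const, Nat.card_Icc, Nat.add_sub_cancel, nsmul_eq_mul]
    _ ≤ (X : ℝ) ^ θ * ((C * ((d : ℝ) + 1) ^ η) ^ 2 * (X : ℝ) ^ κ) :=
        mul_le_mul_of_nonneg_right hRX (by positivity)
    _ = _ := by
        rw [Real.rpow_add hX0]
        ring

/-- **At least `k` values with a small radical.** -/
theorem fewk (d A k : ℕ) (hd : 1 ≤ d) (hA : 1 ≤ A) (hk : k ≤ d) (θ ε : ℝ) (hθ : 0 ≤ θ)
    (hε : 0 < ε) :
    ∃ C : ℝ, ∀ X : ℕ, 1 ≤ X → ∀ S : Finset (Polynomial ℤ),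
      (∀ f ∈ S, f.natDegree = d ∧ (∀ i, |f.coeff i| ≤ (X : ℤ)) ∧
        ∃ P : Finset ℚ, k ≤ P.card ∧ ∀ x ∈ P, |x.num| ≤ ((X ^ A : ℕ) : ℤ) ∧
          x.den ≤ X ^ A ∧ homValue f x.num x.den ≠ 0 ∧
          (rad ((homValue f x.num x.den).natAbs * x.den) : ℝ) ≤ (X : ℝ) ^ θ) →
      (S.card : ℝ) ≤ C * (X : ℝ) ^ ((d : ℝ) + 1 - k + k * θ + ε) := by
  classical
  have hAR : (1 : ℝ) ≤ A := by exact_mod_cast hA
  have hAR0 : (0 : ℝ) < A := by linarith
  have hk1 : (0 : ℝ) < (k : ℝ) + 1 := by positivity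
  have hkd : (k : ℝ) ≤ d := by exact_mod_cast hk
  obtain ⟨CP, hCP, hPP⟩ := card_PP d A θ (ε / (2 * ((k : ℝ) + 1))) hθ (by positivity)
  obtain ⟨η, hη⟩ : ∃ η : ℝ, η = ε / (2 * A * ((d : ℝ) + 1) * ((k : ℝ) + 1)) := ⟨_, rfl⟩
  have hη0 : 0 < η := by
    rw [hη]
    positivity
  obtain ⟨Cη, hCη, hdiv⟩ := H353.divisor_bound_real η hη0
  obtain ⟨B, hB⟩ : ∃ B : ℕ, B = (d + 1) * (k * d + 1) ^ d := ⟨_, rfl⟩
  obtain ⟨B', hB'⟩ : ∃ B' : ℕ, B' = d + 1 + B := ⟨_, rfl⟩
  obtain ⟨D, hD⟩ : ∃ D : ℝ, D = ((k * d + 1 : ℕ) : ℝ) * ((2 * B + 1 : ℕ) : ℝ) *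
      (CP ^ k * 3 ^ (d - k)) := ⟨_, rfl⟩
  have hD0 : 0 ≤ D := by
    rw [hD]
    positivity
  refine ⟨(2 * (Cη * (B' : ℝ) ^ η)) ^ k * D, fun X hX S hS => ?_⟩
  have hXR : (1 : ℝ) ≤ X := by exact_mod_cast hX
  have hX0 : (0 : ℝ) < X := by linarith
  obtain ⟨Y, hY⟩ : ∃ Y, Y = X ^ A := ⟨_, rfl⟩
  have hXY : X ≤ Y := by
    rw [hY]
    calc X = X ^ 1 := (pow_one _).symm
      _ ≤ X ^ A := Nat.pow_le_pow_right hX hA
  have hY1 : 1 ≤ Y := hX.trans hXY
  have hYpow : ∀ t : ℝ, (Y : ℝ) ^ t = (X : ℝ) ^ (A * t) := by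
    intro t
    rw [hY]
    push_cast
    rw [← Real.rpow_natCast, ← Real.rpow_mul hX0.le]
  have hPPX := hPP X hX
  rw [← hY] at hS hPPX
  obtain ⟨Z, hZ⟩ : ∃ Z, Z = (d + 1) * Y ^ (d + 1) := ⟨_, rfl⟩
  obtain ⟨R, hR⟩ : ∃ R, R = ⌊(X : ℝ) ^ θ⌋₊ := ⟨_, rfl⟩
  rw [← hZ, ← hR] at hPPX
  have hYZ : Y ≤ Z := by
    rw [hZ]
    calc Y = Y ^ 1 := (pow_one _).symm
      _ ≤ Y ^ (d + 1) := Nat.pow_le_pow_right hY1 (by omega)
      _ ≤ (d + 1) * Y ^ (d + 1) := Nat.le_mul_of_pos_left _ (by omega)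
  -- the points
  have hpts : ∀ f : Polynomial ℤ, ∃ x : Fin k → ℚ, f ∈ S → Function.Injective x ∧
      ∀ i, |(x i).num| ≤ (Y : ℤ) ∧ (x i).den ≤ Y ∧
        homValue f (x i).num (x i).den ≠ 0 ∧
        (rad ((homValue f (x i).num (x i).den).natAbs * (x i).den) : ℝ) ≤ (X : ℝ) ^ θ := by
    intro f
    by_cases hf : f ∈ S
    · obtain ⟨-, -, P, hP1, hP2⟩ := hS f hf
      refine ⟨fun i => P.equivFin.symm ⟨i, by have := i.2; omega⟩, fun _ => ⟨?_, ?_⟩⟩
      · intro i j hij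
        have h1 := P.equivFin.symm.injective (Subtype.ext hij)
        have h2 := congrArg Fin.val h1
        exact Fin.ext h2
      · intro i
        exact hP2 _ (P.equivFin.symm ⟨i, by have := i.2; omega⟩).2
    · exact ⟨fun _ => 0, fun h => absurd h hf⟩
  choose x hx using hpts
  have hss : ∀ f : Polynomial ℤ, ∃ s : ℕ, f ∈ S → s ∈ Finset.range (k * d + 1) ∧
      ∀ i, (f.map (Int.castRingHom ℚ)).eval (s : ℚ) ≠
        (f.map (Int.castRingHom ℚ)).eval (x f i) := by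
    intro f
    by_cases hf : f ∈ S
    · obtain ⟨s, hs, h⟩ := exists_base hd (hS f hf).1 (x f)
      exact ⟨s, fun _ => ⟨hs, h⟩⟩
    · exact ⟨0, fun h => absurd h hf⟩
  choose s hs using hss
  let dat : Polynomial ℤ → ℕ × ℤ × (Fin k → ℤ × ℤ) × (Fin (d - k) → ℤ) := fun f =>
    (s f, homValue f (s f) 1, fun i => (homValue f (x f i).num (x f i).den, ((x f i).den : ℤ)),
      fun j => f.coeff (k + 1 + j))
  have hval : ∀ f ∈ S, ∀ i, |homValue f (x f i).num (x f i).den| ≤ (Z : ℤ) := by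
    intro f hf i
    obtain ⟨h1, h2, -⟩ := hS f hf
    obtain ⟨h3, h4, h5, h6⟩ := (hx f hf).2 i
    have h7 := homValue_bound h1 hY1 (fun i => (h2 i).trans (by exact_mod_cast hXY)) h3
        (b := ((x f i).den : ℤ)) (by rw [Nat.abs_cast]; exact_mod_cast h4)
    rw [← hZ] at h7
    rw [Int.abs_eq_natAbs]
    exact_mod_cast h7
  have hmem : ∀ f ∈ S, ∀ i, (homValue f (x f i).num (x f i).den, ((x f i).den : ℤ)) ∈
      PP Z R := by
    intro f hf i
    obtain ⟨h3, h4, h5, h6⟩ := (hx f hf).2 i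
    refine mem_PP h5 (by exact_mod_cast (x f i).den_ne_zero) (hval f hf i) ?_ ?_
    · rw [Nat.abs_cast]
      exact_mod_cast h4.trans hYZ
    · rw [hR, Int.natAbs_natCast]
      exact Nat.le_floor h6
  have hdat : ((S.image dat).card : ℝ) ≤
      D * (X : ℝ) ^ (((d : ℝ) + 1 - k + k * θ) + ε / 2) := by
    have h1 : S.image dat ⊆ Finset.range (k * d + 1) ×ˢ
        (Finset.Icc (-((B * X : ℕ) : ℤ)) ((B * X : ℕ) : ℤ) ×ˢ
        ((Fintype.piFinset fun _ : Fin k => PP Z R) ×ˢ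
        (Fintype.piFinset fun _ : Fin (d - k) => Finset.Icc (-(X : ℤ)) (X : ℤ)))) := by
      intro y hy
      obtain ⟨f, hf, rfl⟩ := Finset.mem_image.1 hy
      refine Finset.mem_product.2 ⟨(hs f hf).1, Finset.mem_product.2 ⟨?_,
        Finset.mem_product.2 ⟨Fintype.mem_piFinset.2 fun i => hmem f hf i,
        Fintype.mem_piFinset.2 fun j => ?_⟩⟩⟩
      · have h2 := value_le (hS f hf).1 (hS f hf).2.1 (hs f hf).1
        rw [← hB] at h2
        rw [Finset.mem_Icc]
        exact abs_le.1 h2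
      · rw [Finset.mem_Icc]
        exact abs_le.1 ((hS f hf).2.1 _)
    have h2 := Finset.card_le_card h1
    rw [Finset.card_product, Finset.card_product, Finset.card_product,
      Fintype.card_piFinset, Fintype.card_piFinset, Finset.prod_const, Finset.prod_const,
      Finset.card_univ, Finset.card_univ, Fintype.card_fin, Fintype.card_fin, Finset.card_range,
      Int.card_Icc, Int.card_Icc] at h2
    have e1 : ((((B * X : ℕ) : ℤ) + 1 - -((B * X : ℕ) : ℤ)).toNat : ℕ) = 2 * (B * X) + 1 := by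
      omega
    have e2 : (((X : ℤ) + 1 - -(X : ℤ)).toNat : ℕ) = 2 * X + 1 := by
      omega
    rw [e1, e2] at h2
    have h5 : ((S.image dat).card : ℝ) ≤ ((k * d + 1 : ℕ) : ℝ) * (((2 * (B * X) + 1 : ℕ) : ℝ) *
        (((PP Z R).card : ℝ) ^ k * ((2 * X + 1 : ℕ) : ℝ) ^ (d - k))) := by exact_mod_cast h2
    have h6 : ((PP Z R).card : ℝ) ^ k ≤ CP ^ k * (X : ℝ) ^ (k * θ + ε / 2) := by
      calc ((PP Z R).card : ℝ) ^ k
          ≤ (CP * (X : ℝ) ^ (θ + ε / (2 * ((k : ℝ) + 1)))) ^ k :=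
            pow_le_pow_left₀ (Nat.cast_nonneg _) hPPX _
        _ = CP ^ k * (X : ℝ) ^ ((θ + ε / (2 * ((k : ℝ) + 1))) * k) := by
            rw [mul_pow, ← Real.rpow_natCast ((X : ℝ) ^ (θ + ε / (2 * ((k : ℝ) + 1)))),
              ← Real.rpow_mul hX0.le]
        _ ≤ _ := by
            refine mul_le_mul_of_nonneg_left (Real.rpow_le_rpow_of_exponent_le hXR ?_)
              (by positivity)
            have e3 : ε / (2 * ((k : ℝ) + 1)) * k ≤ ε / 2 := by
              rw [div_mul_eq_mul_div, div_le_div_iff₀ (by positivity) (by norm_num)]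
              nlinarith
            linarith
    have h7 : ((2 * (B * X) + 1 : ℕ) : ℝ) ≤ ((2 * B + 1 : ℕ) : ℝ) * X := by
      have : 2 * (B * X) + 1 ≤ (2 * B + 1) * X := by
        nlinarith
      exact_mod_cast this
    have h8 : ((2 * X + 1 : ℕ) : ℝ) ^ (d - k) ≤ (3 : ℝ) ^ (d - k) * (X : ℝ) ^ (d - k) := by
      rw [← mul_pow]
      refine pow_le_pow_left₀ (Nat.cast_nonneg _) ?_ _
      push_cast
      linarith
    have h9 : (X : ℝ) ^ (((d : ℝ) + 1 - k + k * θ) + ε / 2) =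
        (X : ℝ) * (X : ℝ) ^ (d - k) * (X : ℝ) ^ (k * θ + ε / 2) := by
      rw [add_assoc, Real.rpow_add hX0]
      congr 1
      rw [← pow_succ', ← Real.rpow_natCast]
      congr 1
      push_cast [Nat.cast_sub hk]
      ring
    rw [h9, hD]
    calc ((S.image dat).card : ℝ)
        ≤ ((k * d + 1 : ℕ) : ℝ) * (((2 * (B * X) + 1 : ℕ) : ℝ) *
          (((PP Z R).card : ℝ) ^ k * ((2 * X + 1 : ℕ) : ℝ) ^ (d - k))) := h5
      _ ≤ ((k * d + 1 : ℕ) : ℝ) * ((((2 * B + 1 : ℕ) : ℝ) * X) *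
          ((CP ^ k * (X : ℝ) ^ (k * θ + ε / 2)) * ((3 : ℝ) ^ (d - k) * (X : ℝ) ^ (d - k)))) := by
          refine mul_le_mul_of_nonneg_left ?_ (by positivity)
          refine mul_le_mul h7 ?_ (by positivity) (by positivity)
          exact mul_le_mul h6 h8 (by positivity) (by positivity)
      _ = _ := by ring
  -- the fibers
  obtain ⟨Fm, hFm⟩ : ∃ Fm : ℝ, Fm = (2 * (Cη * (B' : ℝ) ^ η)) ^ k * (X : ℝ) ^ (ε / 2) :=
    ⟨_, rfl⟩
  have hFm0 : 0 ≤ Fm := by
    rw [hFm]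
    positivity
  have hfib : ∀ y ∈ S.image dat, (S.filter fun f => dat f = y).card ≤ ⌊Fm⌋₊ := by
    intro y hy
    obtain ⟨f₀, hf₀, rfl⟩ := Finset.mem_image.1 hy
    refine Nat.le_floor ?_
    have hne : ∀ i, homValue f₀ (x f₀ i).num (x f₀ i).den -
        homValue f₀ (s f₀) 1 * ((x f₀ i).den : ℤ) ^ d ≠ 0 := by
      intro i h0
      have e0 : ((x f₀ i).den : ℤ) ≠ 0 := by exact_mod_cast (x f₀ i).den_ne_zero
      have e1 := homValue_eq f₀ (x f₀ i).num e0
      have e2 := homValue_eq f₀ (s f₀ : ℤ) (b := 1) one_ne_zero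
      rw [(hS f₀ hf₀).1, Int.cast_natCast, Rat.num_div_den] at e1
      have e3 : ((homValue f₀ (s f₀) 1 : ℤ) : ℚ) =
          (f₀.map (Int.castRingHom ℚ)).eval (s f₀ : ℚ) := by simpa using e2
      have e4 : ((homValue f₀ (x f₀ i).num (x f₀ i).den : ℤ) : ℚ) =
          ((homValue f₀ (s f₀) 1 : ℤ) : ℚ) * ((x f₀ i).den : ℚ) ^ d := by
        have := sub_eq_zero.1 h0
        exact_mod_cast this
      rw [e1, e3, mul_comm] at e4
      refine (hs f₀ hf₀).2 i ?_
      exact (mul_right_cancel₀ (pow_ne_zero _ (by exact_mod_cast (x f₀ i).den_ne_zero)) e4).symm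
    have h1 := card_fib (d := d) (S.filter fun f => dat f = dat f₀) x (s f₀)
      (homValue f₀ (s f₀) 1)
      (fun i => homValue f₀ (x f₀ i).num (x f₀ i).den) (fun i => ((x f₀ i).den : ℤ))
      (by
        intro f hf
        obtain ⟨hf1, hf2⟩ := Finset.mem_filter.1 hf
        have g1 : s f = s f₀ := congrArg Prod.fst hf2
        have g2 : homValue f (s f) 1 = homValue f₀ (s f₀) 1 := congrArg (fun z => z.2.1) hf2
        have g3 := fun i => congrFun (congrArg (fun z => z.2.2.1) hf2) i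
        rw [g1] at g2
        exact ⟨(hS f hf1).1, (hx f hf1).1, g2, fun i => congrArg Prod.fst (g3 i),
          fun i => congrArg Prod.snd (g3 i)⟩)
      (by
        intro f hf g hg j hj
        obtain ⟨hf1, hf2⟩ := Finset.mem_filter.1 hf
        obtain ⟨hg1, hg2⟩ := Finset.mem_filter.1 hg
        rcases lt_or_ge d j with hdj | hdj
        · rw [Polynomial.coeff_eq_zero_of_natDegree_lt (by rw [(hS f hf1).1]; exact hdj),
            Polynomial.coeff_eq_zero_of_natDegree_lt (by rw [(hS g hg1).1]; exact hdj)]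
        · have e1 := congrFun (congrArg (fun z => z.2.2.2) (hf2.trans hg2.symm))
            ⟨j - (k + 1), by omega⟩
          have e2 : k + 1 + (j - (k + 1)) = j := by omega
          simp only [dat] at e1
          rw [e2] at e1
          exact e1)
      hne (fun i => by exact_mod_cast (x f₀ i).den_ne_zero)
    have h2 : ((S.filter fun f => dat f = dat f₀).card : ℝ) ≤
        ∏ _i : Fin k, 2 * (Cη * (B' : ℝ) ^ η * (X : ℝ) ^ (ε / (2 * ((k : ℝ) + 1)))) := by
      refine (Nat.cast_le.2 h1).trans ?_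
      rw [Nat.cast_prod]
      refine Finset.prod_le_prod (fun _ _ => Nat.cast_nonneg _) fun i _ => ?_
      push_cast
      refine mul_le_mul_of_nonneg_left ?_ (by norm_num)
      have h3 := hne i
      obtain ⟨K, hK⟩ : ∃ K : ℤ, K = homValue f₀ (x f₀ i).num (x f₀ i).den -
        homValue f₀ (s f₀) 1 * ((x f₀ i).den : ℤ) ^ d := ⟨_, rfl⟩
      rw [← hK] at h3 ⊢
      have h4 := hval f₀ hf₀ i
      have h5 : ((x f₀ i).den : ℤ) ≤ (Y : ℤ) := by exact_mod_cast ((hx f₀ hf₀).2 i).2.1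
      have h6 : |homValue f₀ (s f₀) 1| ≤ ((B * Y : ℕ) : ℤ) := by
        have h7 := value_le (hS f₀ hf₀).1 (hS f₀ hf₀).2.1 (hs f₀ hf₀).1
        rw [← hB] at h7
        refine h7.trans ?_
        exact_mod_cast Nat.mul_le_mul_left _ hXY
      have h7 : |K| ≤ ((B' * Y ^ (d + 1) : ℕ) : ℤ) := by
        rw [hK]
        refine (abs_sub _ _).trans ?_
        rw [abs_mul, abs_pow, Nat.abs_cast]
        calc |homValue f₀ (x f₀ i).num (x f₀ i).den| +
              |homValue f₀ (s f₀) 1| * ((x f₀ i).den : ℤ) ^ d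
            ≤ (Z : ℤ) + ((B * Y : ℕ) : ℤ) * (Y : ℤ) ^ d :=
              add_le_add h4 (mul_le_mul h6 (pow_le_pow_left₀ (by positivity) h5 _) (by positivity)
                (by positivity))
          _ = _ := by
              rw [hZ, hB']
              push_cast
              ring
      have h8 : (K.natAbs : ℝ) ≤ (B' : ℝ) * (Y : ℝ) ^ (d + 1) := by
        have e1 : K.natAbs ≤ B' * Y ^ (d + 1) := by
          rw [Int.abs_eq_natAbs] at h7
          exact_mod_cast h7
        exact_mod_cast e1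
      refine (hdiv K.natAbs (Int.natAbs_ne_zero.2 h3)).trans ?_
      rw [mul_assoc]
      refine mul_le_mul_of_nonneg_left ?_ hCη.le
      refine (Real.rpow_le_rpow (Nat.cast_nonneg _) h8 hη0.le).trans (le_of_eq ?_)
      rw [Real.mul_rpow (by positivity) (by positivity), ← Real.rpow_natCast (Y : ℝ),
        ← Real.rpow_mul (by positivity), hYpow]
      congr 2
      rw [hη]
      push_cast
      field_simp
    refine h2.trans ?_
    rw [Finset.prod_const, Finset.card_univ, Fintype.card_fin, hFm, ← mul_assoc 2, mul_pow]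
    refine mul_le_mul_of_nonneg_left ?_ (by positivity)
    rw [← Real.rpow_natCast ((X : ℝ) ^ (ε / (2 * ((k : ℝ) + 1)))), ← Real.rpow_mul hX0.le]
    refine Real.rpow_le_rpow_of_exponent_le hXR ?_
    rw [div_mul_eq_mul_div, div_le_div_iff₀ (by positivity) (by norm_num)]
    nlinarith
  have hcard := Finset.card_le_mul_card_image S ⌊Fm⌋₊ hfib
  calc (S.card : ℝ) ≤ ((⌊Fm⌋₊ * (S.image dat).card : ℕ) : ℝ) := Nat.cast_le.2 hcard
    _ = (⌊Fm⌋₊ : ℝ) * ((S.image dat).card : ℝ) := by push_cast; ring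
    _ ≤ Fm * (D * (X : ℝ) ^ (((d : ℝ) + 1 - k + k * θ) + ε / 2)) :=
        mul_le_mul (Nat.floor_le hFm0) hdat (Nat.cast_nonneg _) hFm0
    _ = (2 * (Cη * (B' : ℝ) ^ η)) ^ k * D * (X : ℝ) ^ ((d : ℝ) + 1 - k + k * θ + ε) := by
        have h8 : (X : ℝ) ^ ((d : ℝ) + 1 - k + k * θ + ε) =
            (X : ℝ) ^ (ε / 2) * (X : ℝ) ^ (((d : ℝ) + 1 - k + k * θ) + ε / 2) := by
          rw [← Real.rpow_add hX0]
          congr 1
          ring
        rw [hFm, h8]
        ring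

end Pool.Agent.H673.FB
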