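import Mathlib
import Pool.Agent.H673.FB.A

/-!
# Almost full values, and the lower bounds
-/

set_option autoImplicit false

namespace Pool.Agent.H673.FB

open Pool.Agent.R323.SE

/-- `n` is different from `0` and divisible by `p ^ m` for each of its prime divisors `p` outside of a
set of primes with product at most `Q`. -/
def AlmostFull (m : ℕ) (Q : ℝ) (n : ℕ) : Prop :=
  n ≠ 0 ∧ ∃ T : Finset ℕ, (∀ p ∈ T, p.Prime) ∧ ((∏ p ∈ T, p : ℕ) : ℝ) ≤ Q ∧
    ∀ p : ℕ, p.Prime → p ∉ T → p ∣ n → p ^ m ∣ n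

theorem AlmostFull.rad_le {m E : ℕ} {θ κ : ℝ} (hm1 : 1 ≤ m)
    (hm : (E : ℝ) ≤ κ * m) {X : ℕ} (hX : 1 ≤ X) {n : ℕ} (hn : n ≤ X ^ E)
    (h : AlmostFull m ((X : ℝ) ^ θ) n) : (rad n : ℝ) ≤ (X : ℝ) ^ (θ + κ) := by
  obtain ⟨h0, T, hT, hTX, hfull⟩ := h
  have hXR : (1 : ℝ) ≤ X := by exact_mod_cast hX
  have h7 := rad_full (m := m) h0 T hT (fun p hp hpd hpT => hfull p hp hpT hpd)
  have h10 : (rad n : ℝ) ^ m ≤ ((X : ℝ) ^ (θ + κ)) ^ m := by
    have e1 : (rad n : ℝ) ^ m ≤ ((∏ p ∈ T, p : ℕ) : ℝ) ^ m * (X : ℝ) ^ E := by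
      have := h7.trans (Nat.mul_le_mul_left _ hn)
      exact_mod_cast this
    refine e1.trans ?_
    have e2 : (X : ℝ) ^ E ≤ ((X : ℝ) ^ κ) ^ m := by
      rw [← Real.rpow_natCast ((X : ℝ) ^ κ), ← Real.rpow_mul (by linarith),
        ← Real.rpow_natCast (X : ℝ)]
      exact Real.rpow_le_rpow_of_exponent_le hXR hm
    calc ((∏ p ∈ T, p : ℕ) : ℝ) ^ m * (X : ℝ) ^ E
        ≤ ((X : ℝ) ^ θ) ^ m * ((X : ℝ) ^ κ) ^ m :=
          mul_le_mul (pow_le_pow_left₀ (Nat.cast_nonneg _) hTX _) e2 (by positivity)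
            (by positivity)
      _ = ((X : ℝ) ^ (θ + κ)) ^ m := by
          rw [← mul_pow, ← Real.rpow_add (by linarith)]
  exact le_of_pow_le_pow_left₀ (by omega) (by positivity) h10

/-- the size of the values -/
theorem size_le {d A X : ℕ} (hA : 1 ≤ A) (hX : 2 ≤ X) {f : Polynomial ℤ}
    (h1 : f.natDegree = d) (h2 : ∀ i, |f.coeff i| ≤ (X : ℤ)) {x : ℚ}
    (h3 : |x.num| ≤ ((X ^ A : ℕ) : ℤ)) (h4 : x.den ≤ X ^ A) :
    (homValue f x.num x.den).natAbs * x.den ≤ X ^ (2 * d + 2 * (A * (d + 1))) := by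
  have hYA : X ≤ X ^ A := by
    calc X = X ^ 1 := (pow_one _).symm
      _ ≤ X ^ A := Nat.pow_le_pow_right (by omega) hA
  have hYA1 : 1 ≤ X ^ A := Nat.one_le_pow _ _ (by omega)
  have h6 := homValue_bound (X := X ^ A) h1 hYA1
    (fun i => (h2 i).trans (by exact_mod_cast hYA)) (a := x.num) (b := (x.den : ℤ))
    h3 (by rw [Nat.abs_cast]; exact_mod_cast h4)
  have h8 : (homValue f x.num x.den).natAbs * x.den ≤ ((d + 1) * (X ^ A) ^ (d + 1)) ^ 2 := by
    rw [sq]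
    refine Nat.mul_le_mul h6 ?_
    calc x.den ≤ X ^ A := h4
      _ = (X ^ A) ^ 1 := (pow_one _).symm
      _ ≤ (X ^ A) ^ (d + 1) := Nat.pow_le_pow_right hYA1 (by omega)
      _ ≤ (d + 1) * (X ^ A) ^ (d + 1) := Nat.le_mul_of_pos_left _ (by omega)
  refine h8.trans ?_
  have e1 : d + 1 ≤ X ^ d := by
    calc d + 1 ≤ 2 ^ d := Nat.lt_two_pow_self
      _ ≤ X ^ d := Nat.pow_le_pow_left hX _
  calc ((d + 1) * (X ^ A) ^ (d + 1)) ^ 2 ≤ (X ^ d * (X ^ A) ^ (d + 1)) ^ 2 :=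
        Nat.pow_le_pow_left (Nat.mul_le_mul_right _ e1) _
    _ = _ := by
        rw [← pow_mul, ← pow_add, ← pow_mul]
        congr 1
        ring

/-- the exponent -/
theorem exists_m (E : ℕ) (κ : ℝ) (hκ : 0 < κ) : ∃ m : ℕ, 1 ≤ m ∧ (E : ℝ) ≤ κ * m := by
  obtain ⟨m, hm⟩ := exists_nat_gt ((E : ℝ) / κ)
  refine ⟨m + 1, by omega, ?_⟩
  rw [div_lt_iff₀ (by positivity)] at hm
  push_cast
  nlinarith

/-- the trivial bound for `X = 1` -/
theorem card_one {d : ℕ} (hd : 1 ≤ d) {X : ℕ} (hX : 1 ≤ X) (hX2 : X < 2) {S : Finset (Polynomial ℤ)}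
    (hS : ∀ f ∈ S, f.natDegree = d ∧ ∀ i, |f.coeff i| ≤ (X : ℤ)) {C e : ℝ} (he : 0 ≤ e) :
    (S.card : ℝ) ≤ max C ((3 ^ (d + 2) : ℕ) : ℝ) * (X : ℝ) ^ e := by
  have hXR : (1 : ℝ) ≤ X := by exact_mod_cast hX
  have hYε : (1 : ℝ) ≤ (X : ℝ) ^ e := Real.one_le_rpow hXR he
  have h1 := card_int hd hX S hS
  have hY1 : X = 1 := by omega
  have h3 : (S.card : ℝ) ≤ ((3 ^ (d + 2) : ℕ) : ℝ) := by
    rw [hY1] at h1
    exact_mod_cast h1
  calc (S.card : ℝ) ≤ ((3 ^ (d + 2) : ℕ) : ℝ) := h3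
    _ ≤ max C ((3 ^ (d + 2) : ℕ) : ℝ) := le_max_right _ _
    _ = max C ((3 ^ (d + 2) : ℕ) : ℝ) * 1 := (mul_one _).symm
    _ ≤ _ := mul_le_mul_of_nonneg_left hYε ((Nat.cast_nonneg _).trans (le_max_right _ _))

theorem fewk_full (d A k : ℕ) (hd : 1 ≤ d) (hA : 1 ≤ A) (hk : k ≤ d) (θ ε : ℝ) (hθ : 0 ≤ θ)
    (hε : 0 < ε) :
    ∃ (m : ℕ) (C : ℝ), ∀ X : ℕ, 1 ≤ X → ∀ S : Finset (Polynomial ℤ),
      (∀ f ∈ S, f.natDegree = d ∧ (∀ i, |f.coeff i| ≤ (X : ℤ)) ∧
        ∃ P : Finset ℚ, k ≤ P.card ∧ ∀ x ∈ P, |x.num| ≤ ((X ^ A : ℕ) : ℤ) ∧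
          x.den ≤ X ^ A ∧ AlmostFull m ((X : ℝ) ^ θ) ((homValue f x.num x.den).natAbs * x.den)) →
      (S.card : ℝ) ≤ C * (X : ℝ) ^ ((d : ℝ) + 1 - k + k * θ + ε) := by
  have hkd : (k : ℝ) ≤ d := by exact_mod_cast hk
  have hk1 : (0 : ℝ) < (k : ℝ) + 1 := by positivity
  obtain ⟨κ, hκ⟩ : ∃ κ : ℝ, κ = ε / (2 * ((k : ℝ) + 1)) := ⟨_, rfl⟩
  have hκ0 : 0 < κ := by
    rw [hκ]
    positivity
  obtain ⟨C, h⟩ := fewk d A k hd hA hk (θ + κ) (ε / 2) (by positivity) (by positivity)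
  obtain ⟨m, hm1, hm⟩ := exists_m (2 * d + 2 * (A * (d + 1))) κ hκ0
  have hkθ : (0 : ℝ) ≤ k * θ := by positivity
  refine ⟨m, max (max C 0) ((3 ^ (d + 2) : ℕ) : ℝ), fun X hX S hS => ?_⟩
  have hXR : (1 : ℝ) ≤ X := by exact_mod_cast hX
  rcases Nat.lt_or_ge X 2 with hX2 | hX2
  · exact card_one hd hX hX2 (fun f hf => ⟨(hS f hf).1, (hS f hf).2.1⟩) (by linarith)
  · have h0 := h X hX S fun f hf => by
      obtain ⟨h1, h2, P, hP, hP2⟩ := hS f hf
      refine ⟨h1, h2, P, hP, fun x hx => ?_⟩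
      obtain ⟨h3, h4, h5⟩ := hP2 x hx
      refine ⟨h3, h4, fun h0 => h5.1 (by rw [h0, Int.natAbs_zero, zero_mul]), ?_⟩
      exact h5.rad_le hm1 hm hX (size_le hA hX2 h1 h2 h3 h4)
    refine h0.trans ?_
    calc C * (X : ℝ) ^ ((d : ℝ) + 1 - k + k * (θ + κ) + ε / 2)
        ≤ max C 0 * (X : ℝ) ^ ((d : ℝ) + 1 - k + k * (θ + κ) + ε / 2) :=
          mul_le_mul_of_nonneg_right (le_max_left _ _) (by positivity)
      _ ≤ max C 0 * (X : ℝ) ^ ((d : ℝ) + 1 - k + k * θ + ε) := by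
          refine mul_le_mul_of_nonneg_left (Real.rpow_le_rpow_of_exponent_le hXR ?_)
            (le_max_right _ _)
          have e3 : ε / (2 * ((k : ℝ) + 1)) * k ≤ ε / 2 := by
            rw [div_mul_eq_mul_div, div_le_div_iff₀ (by positivity) (by norm_num)]
            nlinarith
          rw [hκ]
          nlinarith
      _ ≤ _ := mul_le_mul_of_nonneg_right (le_max_left _ _) (by positivity)

/-- **More than `d` values with a small radical.** -/
theorem elemθ (d A : ℕ) (hd : 1 ≤ d) (hA : 1 ≤ A) (θ ε : ℝ) (hθ : 0 ≤ θ) (hε : 0 < ε) :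
    ∃ C : ℝ, ∀ X : ℕ, 1 ≤ X → ∀ S : Finset (Polynomial ℤ),
      (∀ f ∈ S, f.natDegree = d ∧ (∀ i, |f.coeff i| ≤ (X : ℤ)) ∧
        ∃ P : Finset ℚ, d < P.card ∧ ∀ x ∈ P, |x.num| ≤ ((X ^ A : ℕ) : ℤ) ∧
          x.den ≤ X ^ A ∧ homValue f x.num x.den ≠ 0 ∧
          (rad ((homValue f x.num x.den).natAbs * x.den) : ℝ) ≤ (X : ℝ) ^ θ) →
      (∀ f ∈ S, ∀ g ∈ S, f ≠ g → ¬ Tr f g) →
      (S.card : ℝ) ≤ C * (X : ℝ) ^ (((d : ℝ) + 1) * θ + ε) := by
  classical
  have hAR : (1 : ℝ) ≤ A := by exact_mod_cast hA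
  have hAR0 : (0 : ℝ) < A := by linarith
  have hd1 : (0 : ℝ) < (d : ℝ) + 1 := by positivity
  obtain ⟨CP, hCP, hPP⟩ := card_PP d A θ (ε / (2 * ((d : ℝ) + 1))) hθ (by positivity)
  obtain ⟨η, hη⟩ : ∃ η : ℝ, η = ε / (2 * A * ((d : ℝ) + 1) * (2 * (d : ℝ) + 1)) := ⟨_, rfl⟩
  have hη0 : 0 < η := by
    rw [hη]
    positivity
  obtain ⟨Cη, hCη, hdiv⟩ := H353.divisor_bound_real η hη0
  refine ⟨(2 * (Cη * ((2 * ((d : ℝ) + 1)) ^ η))) ^ (d + 1) * (CP ^ (d + 1) * ((d : ℝ) + 1)),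
    fun X hX S hS hTr => ?_⟩
  have hXR : (1 : ℝ) ≤ X := by exact_mod_cast hX
  have hX0 : (0 : ℝ) < X := by linarith
  obtain ⟨Y, hY⟩ : ∃ Y, Y = X ^ A := ⟨_, rfl⟩
  have hXY : X ≤ Y := by
    rw [hY]
    calc X = X ^ 1 := (pow_one _).symm
      _ ≤ X ^ A := Nat.pow_le_pow_right hX hA
  have hY1 : 1 ≤ Y := hX.trans hXY
  have hYpow : ∀ t : ℝ, (Y : ℝ) ^ t = (X : ℝ) ^ (A * t) := by
    intro t
    rw [hY]
    push_cast
    rw [← Real.rpow_natCast, ← Real.rpow_mul hX0.le]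
  have hPPX := hPP X hX
  rw [← hY] at hS hPPX
  obtain ⟨Z, hZ⟩ : ∃ Z, Z = (d + 1) * Y ^ (d + 1) := ⟨_, rfl⟩
  obtain ⟨R, hR⟩ : ∃ R, R = ⌊(X : ℝ) ^ θ⌋₊ := ⟨_, rfl⟩
  rw [← hZ, ← hR] at hPPX
  have hYZ : Y ≤ Z := by
    rw [hZ]
    calc Y = Y ^ 1 := (pow_one _).symm
      _ ≤ Y ^ (d + 1) := Nat.pow_le_pow_right hY1 (by omega)
      _ ≤ (d + 1) * Y ^ (d + 1) := Nat.le_mul_of_pos_left _ (by omega)
  -- the points
  have hpts : ∀ f : Polynomial ℤ, ∃ x : Fin (d + 1) → ℚ, f ∈ S → Function.Injective x ∧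
      ∀ i, |(x i).num| ≤ (Y : ℤ) ∧ (x i).den ≤ Y ∧
        homValue f (x i).num (x i).den ≠ 0 ∧
        (rad ((homValue f (x i).num (x i).den).natAbs * (x i).den) : ℝ) ≤ (X : ℝ) ^ θ := by
    intro f
    by_cases hf : f ∈ S
    · obtain ⟨-, -, P, hP1, hP2⟩ := hS f hf
      refine ⟨fun i => P.equivFin.symm ⟨i, by have := i.2; omega⟩, fun _ => ⟨?_, ?_⟩⟩
      · intro i j hij
        have h1 := P.equivFin.symm.injective (Subtype.ext hij)
        have h2 := congrArg Fin.val h1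
        exact Fin.ext h2
      · intro i
        exact hP2 _ (P.equivFin.symm ⟨i, by have := i.2; omega⟩).2
    · exact ⟨fun _ => 0, fun h => absurd h hf⟩
  choose x hx using hpts
  have hjj : ∀ f : Polynomial ℤ, ∃ j : Fin (d + 1), f ∈ S →
      homValue f (x f j).num (x f j).den * ((x f 0).den : ℤ) ^ d ≠
        homValue f (x f 0).num (x f 0).den * ((x f j).den : ℤ) ^ d := by
    intro f
    by_cases hf : f ∈ S
    · obtain ⟨j, hj⟩ := exists_ne hd (hS f hf).1 (x f) (hx f hf).1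
      refine ⟨j, fun _ h => hj ?_⟩
      have e0 : ((x f j).den : ℤ) ≠ 0 := by exact_mod_cast (x f j).den_ne_zero
      have e0' : ((x f 0).den : ℤ) ≠ 0 := by exact_mod_cast (x f 0).den_ne_zero
      have e1 := homValue_eq f (x f j).num e0
      have e2 := homValue_eq f (x f 0).num e0'
      rw [(hS f hf).1, Int.cast_natCast, Rat.num_div_den] at e1 e2
      have e3 : ((homValue f (x f j).num (x f j).den : ℤ) : ℚ) * ((x f 0).den : ℚ) ^ d =
          ((homValue f (x f 0).num (x f 0).den : ℤ) : ℚ) * ((x f j).den : ℚ) ^ d := by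
        exact_mod_cast h
      rw [e1, e2] at e3
      have e4 : ((x f j).den : ℚ) ^ d ≠ 0 := pow_ne_zero _ (by exact_mod_cast (x f j).den_ne_zero)
      have e5 : ((x f 0).den : ℚ) ^ d ≠ 0 := pow_ne_zero _ (by exact_mod_cast (x f 0).den_ne_zero)
      apply mul_left_cancel₀ (mul_ne_zero e4 e5)
      linear_combination e3
    · exact ⟨0, fun h => absurd h hf⟩
  choose jj hjj using hjj
  let dat : Polynomial ℤ → (Fin (d + 1) → ℤ × ℤ) × Fin (d + 1) := fun f =>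
    (fun i => (homValue f (x f i).num (x f i).den, ((x f i).den : ℤ)), jj f)
  have hval : ∀ f ∈ S, ∀ i, |homValue f (x f i).num (x f i).den| ≤ (Z : ℤ) := by
    intro f hf i
    obtain ⟨h1, h2, -⟩ := hS f hf
    obtain ⟨h3, h4, h5, h6⟩ := (hx f hf).2 i
    have h7 := homValue_bound h1 hY1 (fun i => (h2 i).trans (by exact_mod_cast hXY)) h3
        (b := ((x f i).den : ℤ)) (by rw [Nat.abs_cast]; exact_mod_cast h4)
    rw [← hZ] at h7
    rw [Int.abs_eq_natAbs]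
    exact_mod_cast h7
  have hmem : ∀ f ∈ S, ∀ i, (homValue f (x f i).num (x f i).den, ((x f i).den : ℤ)) ∈
      PP Z R := by
    intro f hf i
    obtain ⟨h3, h4, h5, h6⟩ := (hx f hf).2 i
    refine mem_PP h5 (by exact_mod_cast (x f i).den_ne_zero) (hval f hf i) ?_ ?_
    · rw [Nat.abs_cast]
      exact_mod_cast h4.trans hYZ
    · rw [hR, Int.natAbs_natCast]
      exact Nat.le_floor h6
  have hdat : ((S.image dat).card : ℝ) ≤ (CP ^ (d + 1) * ((d : ℝ) + 1)) *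
      (X : ℝ) ^ (((d : ℝ) + 1) * θ + ε / 2) := by
    have h1 : S.image dat ⊆ (Fintype.piFinset fun _ : Fin (d + 1) => PP Z R) ×ˢ Finset.univ := by
      intro y hy
      obtain ⟨f, hf, rfl⟩ := Finset.mem_image.1 hy
      exact Finset.mem_product.2 ⟨Fintype.mem_piFinset.2 fun i => hmem f hf i,
        Finset.mem_univ _⟩
    have h2 := Finset.card_le_card h1
    rw [Finset.card_product, Fintype.card_piFinset, Finset.prod_const,
      Finset.card_univ, Fintype.card_fin] at h2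
    have h5 : ((S.image dat).card : ℝ) ≤ ((PP Z R).card : ℝ) ^ (d + 1) * ((d : ℝ) + 1) := by
      exact_mod_cast h2
    have h6 : ((PP Z R).card : ℝ) ^ (d + 1) ≤
        CP ^ (d + 1) * (X : ℝ) ^ (((d : ℝ) + 1) * θ + ε / 2) := by
      calc ((PP Z R).card : ℝ) ^ (d + 1)
          ≤ (CP * (X : ℝ) ^ (θ + ε / (2 * ((d : ℝ) + 1)))) ^ (d + 1) :=
            pow_le_pow_left₀ (Nat.cast_nonneg _) hPPX _
        _ = CP ^ (d + 1) * (X : ℝ) ^ (((d : ℝ) + 1) * θ + ε / 2) := by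
            rw [mul_pow, ← Real.rpow_natCast ((X : ℝ) ^ (θ + ε / (2 * ((d : ℝ) + 1)))),
              ← Real.rpow_mul hX0.le]
            congr 2
            push_cast
            field_simp
    calc ((S.image dat).card : ℝ) ≤ ((PP Z R).card : ℝ) ^ (d + 1) * ((d : ℝ) + 1) := h5
      _ ≤ (CP ^ (d + 1) * (X : ℝ) ^ (((d : ℝ) + 1) * θ + ε / 2)) * ((d : ℝ) + 1) :=
          mul_le_mul_of_nonneg_right h6 hd1.le
      _ = _ := by ring
  -- the fibers
  obtain ⟨Fm, hFm⟩ : ∃ Fm : ℝ, Fm = (2 * (Cη * ((2 * ((d : ℝ) + 1)) ^ η))) ^ (d + 1) *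
      (X : ℝ) ^ (ε / 2) := ⟨_, rfl⟩
  have hFm0 : 0 ≤ Fm := by
    rw [hFm]
    positivity
  have hfib : ∀ y ∈ S.image dat, (S.filter fun f => dat f = y).card ≤ ⌊Fm⌋₊ := by
    intro y hy
    obtain ⟨f₀, hf₀, rfl⟩ := Finset.mem_image.1 hy
    refine Nat.le_floor ?_
    have h1 := card_fiber (d := d) (S.filter fun f => dat f = dat f₀) x
      (fun i => homValue f₀ (x f₀ i).num (x f₀ i).den) (fun i => ((x f₀ i).den : ℤ)) (jj f₀)
      (by
        intro f hf
        obtain ⟨hf1, hf2⟩ := Finset.mem_filter.1 hf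
        have g3 := fun i => congrFun (congrArg Prod.fst hf2) i
        exact ⟨(hS f hf1).1, (hx f hf1).1, fun i => congrArg Prod.fst (g3 i),
          fun i => congrArg Prod.snd (g3 i)⟩)
      (fun f hf g hg hne => hTr f (Finset.mem_filter.1 hf).1 g (Finset.mem_filter.1 hg).1 hne)
      (hjj f₀ hf₀) (fun i => by exact_mod_cast (x f₀ i).den_ne_zero)
    have hkn := kp_ne (d := d) (fun i => homValue f₀ (x f₀ i).num (x f₀ i).den)
      (fun i => ((x f₀ i).den : ℤ)) (jj f₀) (fun i => by exact_mod_cast (x f₀ i).den_ne_zero)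
      (hjj f₀ hf₀)
    have h2 : ((S.filter fun f => dat f = dat f₀).card : ℝ) ≤
        ∏ _i : Fin (d + 1), 2 * (Cη * ((2 * ((d : ℝ) + 1)) ^ η) *
          (X : ℝ) ^ (ε / (2 * ((d : ℝ) + 1)))) := by
      refine (Nat.cast_le.2 h1).trans ?_
      rw [Nat.cast_prod]
      refine Finset.prod_le_prod (fun _ _ => Nat.cast_nonneg _) fun i _ => ?_
      push_cast
      refine mul_le_mul_of_nonneg_left ?_ (by norm_num)
      have h3 := hkn i
      obtain ⟨i', hi'⟩ : ∃ i', i' = kp (fun i => homValue f₀ (x f₀ i).num (x f₀ i).den)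
            (fun i => ((x f₀ i).den : ℤ)) (jj f₀) i := ⟨_, rfl⟩
      rw [← hi'] at h3 ⊢
      obtain ⟨K, hK⟩ : ∃ K : ℤ, K = homValue f₀ (x f₀ i).num (x f₀ i).den *
          ((x f₀ i').den : ℤ) ^ d -
          homValue f₀ (x f₀ i').num (x f₀ i').den * ((x f₀ i).den : ℤ) ^ d := ⟨_, rfl⟩
      rw [← hK] at h3 ⊢
      have h5 : ∀ i, ((x f₀ i).den : ℤ) ≤ (Y : ℤ) := fun i => by
        exact_mod_cast ((hx f₀ hf₀).2 i).2.1
      have h6 : |K| ≤ ((2 * ((d + 1) * Y ^ (2 * d + 1)) : ℕ) : ℤ) := by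
        have e1 : ∀ i k : Fin (d + 1), |homValue f₀ (x f₀ i).num (x f₀ i).den *
            ((x f₀ k).den : ℤ) ^ d| ≤ (((d + 1) * Y ^ (2 * d + 1) : ℕ) : ℤ) := by
          intro i k
          rw [abs_mul, abs_pow, Nat.abs_cast]
          calc |homValue f₀ (x f₀ i).num (x f₀ i).den| * ((x f₀ k).den : ℤ) ^ d ≤
                (Z : ℤ) * (Y : ℤ) ^ d := mul_le_mul (hval f₀ hf₀ i)
                (pow_le_pow_left₀ (by positivity) (h5 k) _) (by positivity) (by positivity)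
            _ = (((d + 1) * Y ^ (2 * d + 1) : ℕ) : ℤ) := by
                rw [hZ]
                push_cast
                ring
        rw [hK]
        refine (abs_sub _ _).trans ?_
        refine (add_le_add (e1 _ _) (e1 _ _)).trans (le_of_eq ?_)
        push_cast
        ring
      have h7 : (K.natAbs : ℝ) ≤ 2 * ((d : ℝ) + 1) * (Y : ℝ) ^ (2 * d + 1) := by
        have e1 : K.natAbs ≤ 2 * ((d + 1) * Y ^ (2 * d + 1)) := by
          rw [Int.abs_eq_natAbs] at h6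
          exact_mod_cast h6
        have e3 : (K.natAbs : ℝ) ≤ ((2 * ((d + 1) * Y ^ (2 * d + 1)) : ℕ) : ℝ) :=
          Nat.cast_le.2 e1
        refine e3.trans (le_of_eq ?_)
        push_cast
        ring
      refine (hdiv K.natAbs (Int.natAbs_ne_zero.2 h3)).trans ?_
      rw [mul_assoc]
      refine mul_le_mul_of_nonneg_left ?_ hCη.le
      refine (Real.rpow_le_rpow (Nat.cast_nonneg _) h7 hη0.le).trans (le_of_eq ?_)
      rw [Real.mul_rpow (by positivity) (by positivity), ← Real.rpow_natCast (Y : ℝ),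
        ← Real.rpow_mul (by positivity), hYpow]
      congr 2
      rw [hη]
      push_cast
      field_simp
    refine h2.trans (le_of_eq ?_)
    rw [Finset.prod_const, Finset.card_univ, Fintype.card_fin, hFm]
    rw [← mul_assoc 2, mul_pow, ← Real.rpow_natCast ((X : ℝ) ^ (ε / (2 * ((d : ℝ) + 1)))),
      ← Real.rpow_mul hX0.le]
    congr 2
    push_cast
    field_simp
  have hcard := Finset.card_le_mul_card_image S ⌊Fm⌋₊ hfib
  calc (S.card : ℝ) ≤ ((⌊Fm⌋₊ * (S.image dat).card : ℕ) : ℝ) := Nat.cast_le.2 hcard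
    _ = (⌊Fm⌋₊ : ℝ) * ((S.image dat).card : ℝ) := by push_cast; ring
    _ ≤ Fm * ((CP ^ (d + 1) * ((d : ℝ) + 1)) * (X : ℝ) ^ (((d : ℝ) + 1) * θ + ε / 2)) :=
        mul_le_mul (Nat.floor_le hFm0) hdat (Nat.cast_nonneg _) hFm0
    _ = _ := by
        have h8 : (X : ℝ) ^ (((d : ℝ) + 1) * θ + ε) =
            (X : ℝ) ^ (ε / 2) * (X : ℝ) ^ (((d : ℝ) + 1) * θ + ε / 2) := by
          rw [← Real.rpow_add hX0]
          congr 1
          ring
        rw [hFm, h8]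
        ring

theorem elem_full (d A : ℕ) (hd : 1 ≤ d) (hA : 1 ≤ A) (θ ε : ℝ) (hθ : 0 ≤ θ) (hε : 0 < ε) :
    ∃ (m : ℕ) (C : ℝ), ∀ X : ℕ, 1 ≤ X → ∀ S : Finset (Polynomial ℤ),
      (∀ f ∈ S, f.natDegree = d ∧ (∀ i, |f.coeff i| ≤ (X : ℤ)) ∧
        ∃ P : Finset ℚ, d < P.card ∧ ∀ x ∈ P, |x.num| ≤ ((X ^ A : ℕ) : ℤ) ∧
          x.den ≤ X ^ A ∧ AlmostFull m ((X : ℝ) ^ θ) ((homValue f x.num x.den).natAbs * x.den)) →
      (∀ f ∈ S, ∀ g ∈ S, f ≠ g → ¬ Tr f g) →
      (S.card : ℝ) ≤ C * (X : ℝ) ^ (((d : ℝ) + 1) * θ + ε) := by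
  have hd1 : (0 : ℝ) < (d : ℝ) + 1 := by positivity
  obtain ⟨κ, hκ⟩ : ∃ κ : ℝ, κ = ε / (2 * ((d : ℝ) + 1)) := ⟨_, rfl⟩
  have hκ0 : 0 < κ := by
    rw [hκ]
    positivity
  obtain ⟨C, h⟩ := elemθ d A hd hA (θ + κ) (ε / 2) (by positivity) (by positivity)
  obtain ⟨m, hm1, hm⟩ := exists_m (2 * d + 2 * (A * (d + 1))) κ hκ0
  refine ⟨m, max C ((3 ^ (d + 2) : ℕ) : ℝ), fun X hX S hS hT => ?_⟩
  rcases Nat.lt_or_ge X 2 with hX2 | hX2
  · exact card_one hd hX hX2 (fun f hf => ⟨(hS f hf).1, (hS f hf).2.1⟩) (by positivity)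
  · have h0 := h X hX S (fun f hf => by
      obtain ⟨h1, h2, P, hP, hP2⟩ := hS f hf
      refine ⟨h1, h2, P, hP, fun x hx => ?_⟩
      obtain ⟨h3, h4, h5⟩ := hP2 x hx
      refine ⟨h3, h4, fun h0 => h5.1 (by rw [h0, Int.natAbs_zero, zero_mul]), ?_⟩
      exact h5.rad_le hm1 hm hX (size_le hA hX2 h1 h2 h3 h4)) hT
    have e1 : ((d : ℝ) + 1) * (θ + κ) + ε / 2 = ((d : ℝ) + 1) * θ + ε := by
      rw [hκ]
      field_simp
      ring
    rw [e1] at h0
    exact h0.trans (mul_le_mul_of_nonneg_right (le_max_left _ _) (by positivity))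

/-- The polynomial `(x - 1) ... (x - k)`. -/
noncomputable def base (k : ℕ) : Polynomial ℤ :=
  ∏ i ∈ Finset.range k, (Polynomial.X - Polynomial.C ((i : ℤ) + 1))

theorem base_monic (d : ℕ) : (base d).Monic :=
  Polynomial.monic_prod_of_monic _ _ fun _ _ => Polynomial.monic_X_sub_C _

theorem base_natDegree (d : ℕ) : (base d).natDegree = d := by
  unfold base
  rw [Polynomial.natDegree_prod_of_monic _ _ fun i _ => Polynomial.monic_X_sub_C _,
    Finset.sum_congr rfl fun i _ => Polynomial.natDegree_X_sub_C _, Finset.sum_const,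
    Finset.card_range, smul_eq_mul, mul_one]

theorem base_coeff (d : ℕ) : ∀ j, |(base d).coeff j| ≤ ((d + 1).factorial : ℤ) := by
  induction d with
  | zero =>
    intro j
    unfold base
    rw [Finset.prod_range_zero, Polynomial.coeff_one]
    split_ifs <;> simp
  | succ d ih =>
    have h0 : base (d + 1) = base d * (Polynomial.X - Polynomial.C ((d : ℤ) + 1)) := by
      unfold base
      rw [Finset.prod_range_succ]
    have hpos : (0 : ℤ) ≤ ((d + 1).factorial : ℤ) := by positivity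
    intro j
    rw [h0, mul_sub, Polynomial.coeff_sub, Polynomial.coeff_mul_C, Nat.factorial_succ (d + 1)]
    have h1 := ih j
    rcases j with _ | j
    · rw [Polynomial.coeff_mul_X_zero, zero_sub, abs_neg, abs_mul]
      have h2 : |(d : ℤ) + 1| = (d : ℤ) + 1 := abs_of_nonneg (by positivity)
      rw [h2]
      push_cast
      nlinarith
    · rw [Polynomial.coeff_mul_X]
      have h3 := ih j
      have h2 : |(d : ℤ) + 1| = (d : ℤ) + 1 := abs_of_nonneg (by positivity)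
      have h4 := abs_sub ((base d).coeff j) ((base d).coeff (j + 1) * ((d : ℤ) + 1))
      rw [abs_mul, h2] at h4
      push_cast
      nlinarith

theorem base_eval {d : ℕ} {x : ℤ} (hx : x ∈ Finset.Icc (1 : ℤ) d) : (base d).eval x = 0 := by
  rw [Finset.mem_Icc] at hx
  unfold base
  rw [Polynomial.eval_prod]
  refine Finset.prod_eq_zero (i := (x - 1).toNat) (Finset.mem_range.2 (by omega)) ?_
  rw [Polynomial.eval_sub, Polynomial.eval_X, Polynomial.eval_C]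
  omega

/-- The polynomial `g(x) (x - 1) ... (x - k) + 1`, where `g` has the coefficients `c`. -/
noncomputable def pol (k : ℕ) {n : ℕ} (c : Fin (n + 1) → ℕ) : Polynomial ℤ :=
  (∑ j, Polynomial.C (c j : ℤ) * Polynomial.X ^ (j : ℕ)) * base k + Polynomial.C 1

theorem cof_coeff {n : ℕ} (c : Fin (n + 1) → ℕ) (i : ℕ) :
    (∑ j, Polynomial.C (c j : ℤ) * Polynomial.X ^ (j : ℕ)).coeff i =
      if h : i < n + 1 then (c ⟨i, h⟩ : ℤ) else 0 := by
  rw [Polynomial.finsetSum_coeff]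
  simp only [Polynomial.coeff_C_mul_X_pow]
  split_ifs with h
  · rw [Finset.sum_eq_single ⟨i, h⟩]
    · simp
    · intro j _ hj
      rw [if_neg]
      intro h1
      exact hj (Fin.ext h1.symm)
    · intro h1
      exact absurd (Finset.mem_univ _) h1
  · refine Finset.sum_eq_zero fun j _ => ?_
    rw [if_neg]
    intro h1
    have := j.2
    omega

theorem cof_natDegree {n : ℕ} (c : Fin (n + 1) → ℕ) (hc : c (Fin.last n) ≠ 0) :
    (∑ j, Polynomial.C (c j : ℤ) * Polynomial.X ^ (j : ℕ) : Polynomial ℤ).natDegree = n := by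
  apply le_antisymm
  · rw [Polynomial.natDegree_le_iff_coeff_eq_zero]
    intro i hi
    rw [cof_coeff, dif_neg (by omega)]
  · apply Polynomial.le_natDegree_of_ne_zero
    rw [cof_coeff, dif_pos (by omega)]
    exact_mod_cast hc

theorem pol_injective (k n : ℕ) : Function.Injective (pol k : (Fin (n + 1) → ℕ) → _) := by
  intro c c' h
  unfold pol at h
  have h1 := mul_right_cancel₀ (base_monic k).ne_zero (add_right_cancel h)
  funext j
  have h2 := congrArg (fun q => Polynomial.coeff q (j : ℕ)) h1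
  simp only [cof_coeff] at h2
  rw [dif_pos j.2, dif_pos j.2] at h2
  exact_mod_cast h2

theorem pol_natDegree {k n : ℕ} (c : Fin (n + 1) → ℕ) (hc : c (Fin.last n) ≠ 0) :
    (pol k c).natDegree = n + k := by
  unfold pol
  rw [Polynomial.natDegree_add_C, Polynomial.natDegree_mul ?_ (base_monic k).ne_zero,
    cof_natDegree c hc, base_natDegree]
  intro h0
  have h1 := congrArg (fun q => Polynomial.coeff q n) h0
  simp only [cof_coeff, Polynomial.coeff_zero] at h1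
  rw [dif_pos (by omega)] at h1
  exact hc (by exact_mod_cast h1)

theorem pol_leadingCoeff {k n : ℕ} (hk : 1 ≤ n + k) (c : Fin (n + 1) → ℕ)
    (hc : c (Fin.last n) ≠ 0) : (pol k c).leadingCoeff = c (Fin.last n) := by
  have h1 : (pol k c).leadingCoeff =
      ((∑ j, Polynomial.C (c j : ℤ) * Polynomial.X ^ (j : ℕ)) * base k).leadingCoeff := by
    unfold pol
    rw [Polynomial.leadingCoeff_add_of_degree_lt']
    refine lt_of_le_of_lt Polynomial.degree_C_le ?_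
    have h2 := pol_natDegree (k := k) c hc
    unfold pol at h2
    rw [Polynomial.natDegree_add_C] at h2
    exact Polynomial.natDegree_pos_iff_degree_pos.1 (by omega)
  rw [h1, Polynomial.leadingCoeff_mul, (base_monic k).leadingCoeff, mul_one,
    Polynomial.leadingCoeff, cof_natDegree c hc, cof_coeff, dif_pos (by omega)]
  rfl

theorem pol_coeff {k n q X : ℕ} (c : Fin (n + 1) → ℕ)
    (hc : ∀ j, c j ≤ q) (hq : q * ((n + 1) * (k + 1).factorial) + 1 ≤ X) (i : ℕ) :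
    |(pol k c).coeff i| ≤ (X : ℤ) := by
  have h1 : |((∑ j, Polynomial.C (c j : ℤ) * Polynomial.X ^ (j : ℕ)) * base k).coeff i| ≤
      (q : ℤ) * (((n : ℤ) + 1) * ((k + 1).factorial : ℤ)) := by
    rw [Finset.sum_mul, Polynomial.finsetSum_coeff]
    have h2 : ∀ j : Fin (n + 1),
        |(Polynomial.C (c j : ℤ) * Polynomial.X ^ (j : ℕ) * base k).coeff i| ≤
          (q : ℤ) * ((k + 1).factorial : ℤ) := by
      intro j
      rw [mul_assoc, Polynomial.coeff_C_mul, Polynomial.coeff_X_pow_mul', abs_mul, Nat.abs_cast]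
      refine mul_le_mul (by exact_mod_cast hc j) ?_ (abs_nonneg _) (by positivity)
      split_ifs
      · exact base_coeff _ _
      · rw [abs_zero]
        positivity
    refine (Finset.abs_sum_le_sum_abs _ _).trans ((Finset.sum_le_sum fun j _ => h2 j).trans
      (le_of_eq ?_))
    rw [Finset.sum_const, Finset.card_univ, Fintype.card_fin, nsmul_eq_mul]
    push_cast
    ring
  have h2 : |(if i = 0 then 1 else 0 : ℤ)| ≤ 1 := by split_ifs <;> simp
  have h4 : (q : ℤ) * (((n : ℤ) + 1) * ((k + 1).factorial : ℤ)) + 1 ≤ X := by exact_mod_cast hq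
  unfold pol
  rw [Polynomial.coeff_add, Polynomial.coeff_C]
  exact ((abs_add_le _ _).trans (add_le_add h1 h2)).trans h4

theorem pol_points {k n : ℕ} (c : Fin (n + 1) → ℕ) : k ≤ {x : ℤ | (pol k c).eval x = 1}.encard := by
  have h1 : ((Finset.Icc (1 : ℤ) k : Finset ℤ) : Set ℤ) ⊆ {x : ℤ | (pol k c).eval x = 1} := by
    intro x hx
    have hx' : x ∈ Finset.Icc (1 : ℤ) k := by exact_mod_cast hx
    show (pol k c).eval x = 1
    unfold pol
    rw [Polynomial.eval_add, Polynomial.eval_mul, base_eval hx', mul_zero, zero_add,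
      Polynomial.eval_C]
  refine le_trans (le_of_eq ?_) (Set.encard_le_encard h1)
  rw [Set.encard_coe_eq_coe_finsetCard, Int.card_Icc]
  simp

/-- the lower bounds -/
theorem lower (n k : ℕ) (hk : 1 ≤ n + k) (X : ℕ) (hX : 1 ≤ X) : ∃ S : Finset (Polynomial ℤ),
    (∀ f ∈ S, f.natDegree = n + k ∧ (∀ i, |f.coeff i| ≤ (X : ℤ)) ∧
      k ≤ {x : ℤ | f.eval x = 1}.encard) ∧
    (n = 0 → ∀ f ∈ S, ∀ g ∈ S, f ≠ g → f.leadingCoeff ≠ g.leadingCoeff) ∧
    S.card = ((X - 1) / ((n + 1) * (k + 1).factorial)) ^ (n + 1) := by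
  classical
  obtain ⟨M, hM⟩ : ∃ M, M = (n + 1) * (k + 1).factorial := ⟨_, rfl⟩
  rw [← hM]
  have hmem : ∀ f ∈ (Fintype.piFinset fun _ : Fin (n + 1) =>
      Finset.Icc 1 ((X - 1) / M)).image (pol k), ∃ c : Fin (n + 1) → ℕ, pol k c = f ∧
      ∀ j, 1 ≤ c j ∧ c j ≤ (X - 1) / M := by
    intro f hf
    obtain ⟨c, hc, rfl⟩ := Finset.mem_image.1 hf
    exact ⟨c, rfl, fun j => Finset.mem_Icc.1 (Fintype.mem_piFinset.1 hc j)⟩
  refine ⟨(Fintype.piFinset fun _ : Fin (n + 1) => Finset.Icc 1 ((X - 1) / M)).image (pol k),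
    ?_, ?_, ?_⟩
  · intro f hf
    obtain ⟨c, rfl, hc⟩ := hmem f hf
    refine ⟨pol_natDegree c (by have := (hc (Fin.last n)).1; omega),
      fun i => pol_coeff c (fun j => (hc j).2) ?_ i, pol_points c⟩
    have h3 : (X - 1) / M * M ≤ X - 1 := Nat.div_mul_le_self _ _
    rw [← hM]
    generalize (X - 1) / M * M = Z at h3
    omega
  · rintro rfl f hf g hg hne h
    obtain ⟨c, rfl, hc⟩ := hmem f hf
    obtain ⟨c', rfl, hc'⟩ := hmem g hg
    rw [pol_leadingCoeff hk c (by have := (hc (Fin.last 0)).1; omega),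
      pol_leadingCoeff hk c' (by have := (hc' (Fin.last 0)).1; omega)] at h
    apply hne
    congr 1
    funext j
    have hj : j = Fin.last 0 := Fin.ext (by simp)
    rw [hj]
    exact_mod_cast h
  · rw [Finset.card_image_of_injective _ (pol_injective k n), Fintype.card_piFinset,
      Finset.prod_const, Finset.card_univ, Fintype.card_fin, Nat.card_Icc, Nat.add_sub_cancel]

/-- The polynomial with the coefficients `c`. -/
noncomputable def cof {n : ℕ} (c : Fin n → ℕ) : Polynomial ℤ :=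
  ∑ j, Polynomial.C (c j : ℤ) * Polynomial.X ^ (j : ℕ)

theorem cof_co {n : ℕ} (c : Fin n → ℕ) (i : ℕ) :
    (cof c).coeff i = if h : i < n then (c ⟨i, h⟩ : ℤ) else 0 := by
  unfold cof
  rw [Polynomial.finsetSum_coeff]
  simp only [Polynomial.coeff_C_mul_X_pow]
  split_ifs with h
  · rw [Finset.sum_eq_single ⟨i, h⟩]
    · simp
    · intro j _ hj
      rw [if_neg]
      intro h1
      exact hj (Fin.ext h1.symm)
    · intro h1
      exact absurd (Finset.mem_univ _) h1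
  · refine Finset.sum_eq_zero fun j _ => ?_
    rw [if_neg]
    intro h1
    have := j.2
    omega

theorem cof_injective (n : ℕ) : Function.Injective (cof : (Fin n → ℕ) → _) := by
  intro c c' h
  funext j
  have h2 := congrArg (fun q => Polynomial.coeff q (j : ℕ)) h
  simp only [cof_co] at h2
  rw [dif_pos j.2, dif_pos j.2] at h2
  exact_mod_cast h2

theorem cof_degree {n : ℕ} (c : Fin n → ℕ) : (cof c).degree < n :=
  Polynomial.degree_sum_fin_lt fun j => (c j : ℤ)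

/-- The polynomial `g(x) (x - 1) ... (x - k) + r(x) + 1`, where `g` has the coefficients `c` and `r`
has the coefficients `b`. -/
noncomputable def polb (k : ℕ) {n : ℕ} (q : (Fin k → ℕ) × (Fin (n + 1) → ℕ)) : Polynomial ℤ :=
  cof q.2 * base k + (cof q.1 + Polynomial.C 1)

theorem polb_injective (k n : ℕ) :
    Function.Injective (polb k : (Fin k → ℕ) × (Fin (n + 1) → ℕ) → _) := by
  rintro ⟨b, c⟩ ⟨b', c'⟩ h
  have h' : cof c * base k + (cof b + Polynomial.C 1) =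
      cof c' * base k + (cof b' + Polynomial.C 1) := h
  have h1 : (cof c - cof c') * base k = cof b' - cof b := by
    linear_combination h'
  have h2 : cof c = cof c' := by
    by_contra hne
    have h3 : cof c - cof c' ≠ 0 := sub_ne_zero.2 hne
    have h4 : (cof b' - cof b).degree < k :=
      (Polynomial.degree_sub_le _ _).trans_lt (max_lt (cof_degree _) (cof_degree _))
    rw [← h1, Polynomial.degree_mul, Polynomial.degree_eq_natDegree h3,
      Polynomial.degree_eq_natDegree (base_monic k).ne_zero, base_natDegree] at h4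
    have h5 : (cof c - cof c').natDegree + k < k := by exact_mod_cast h4
    omega
  rw [h2, sub_self, zero_mul] at h1
  have h3 : cof b' = cof b := sub_eq_zero.1 h1.symm
  rw [cof_injective _ h2, cof_injective _ h3]

theorem low_natDegree {k : ℕ} (b : Fin k → ℕ) :
    (cof b + Polynomial.C 1 : Polynomial ℤ).natDegree ≤ k - 1 := by
  rw [Polynomial.natDegree_le_iff_coeff_eq_zero]
  intro i hi
  rw [Polynomial.coeff_add, cof_co, dif_neg (by omega), Polynomial.coeff_C, if_neg (by omega),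
    add_zero]

theorem polb_natDegree {k n : ℕ} (hk : 1 ≤ n + k) (q : (Fin k → ℕ) × (Fin (n + 1) → ℕ))
    (hc : q.2 (Fin.last n) ≠ 0) : (polb k q).natDegree = n + k := by
  have h1 : (cof q.2 * base k).natDegree = n + k := by
    have h0 : (cof q.2).natDegree = n := cof_natDegree q.2 hc
    rw [Polynomial.natDegree_mul ?_ (base_monic k).ne_zero, h0, base_natDegree]
    intro h0
    have h1 := congrArg (fun q => Polynomial.coeff q n) h0
    simp only [cof_co, Polynomial.coeff_zero] at h1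
    rw [dif_pos (by omega)] at h1
    exact hc (by exact_mod_cast h1)
  unfold polb
  rw [Polynomial.natDegree_add_eq_left_of_natDegree_lt, h1]
  rw [h1]
  exact (low_natDegree q.1).trans_lt (by omega)

theorem polb_coeff {k n q₁ q₂ X : ℕ} (q : (Fin k → ℕ) × (Fin (n + 1) → ℕ))
    (hb : ∀ j, q.1 j ≤ q₁) (hc : ∀ j, q.2 j ≤ q₂)
    (hq : q₂ * ((n + 1) * (k + 1).factorial) + (q₁ + 1) ≤ X) (i : ℕ) :
    |(polb k q).coeff i| ≤ (X : ℤ) := by
  have h1 : |(cof q.2 * base k).coeff i| ≤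
      (q₂ : ℤ) * (((n : ℤ) + 1) * ((k + 1).factorial : ℤ)) := by
    unfold cof
    rw [Finset.sum_mul, Polynomial.finsetSum_coeff]
    have h2 : ∀ j : Fin (n + 1),
        |(Polynomial.C (q.2 j : ℤ) * Polynomial.X ^ (j : ℕ) * base k).coeff i| ≤
          (q₂ : ℤ) * ((k + 1).factorial : ℤ) := by
      intro j
      rw [mul_assoc, Polynomial.coeff_C_mul, Polynomial.coeff_X_pow_mul', abs_mul, Nat.abs_cast]
      refine mul_le_mul (by exact_mod_cast hc j) ?_ (abs_nonneg _) (by positivity)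
      split_ifs
      · exact base_coeff _ _
      · rw [abs_zero]
        positivity
    refine (Finset.abs_sum_le_sum_abs _ _).trans ((Finset.sum_le_sum fun j _ => h2 j).trans
      (le_of_eq ?_))
    rw [Finset.sum_const, Finset.card_univ, Fintype.card_fin, nsmul_eq_mul]
    push_cast
    ring
  have h2 : |(cof q.1 + Polynomial.C 1 : Polynomial ℤ).coeff i| ≤ (q₁ : ℤ) + 1 := by
    rw [Polynomial.coeff_add, Polynomial.coeff_C]
    refine (abs_add_le _ _).trans (add_le_add ?_ (by split_ifs <;> simp))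
    rw [cof_co]
    split_ifs with h
    · rw [Nat.abs_cast]
      exact_mod_cast hb _
    · rw [abs_zero]
      positivity
  have h4 : (q₂ : ℤ) * (((n : ℤ) + 1) * ((k + 1).factorial : ℤ)) + ((q₁ : ℤ) + 1) ≤ X := by
    exact_mod_cast hq
  unfold polb
  rw [Polynomial.coeff_add]
  exact ((abs_add_le _ _).trans (add_le_add h1 h2)).trans h4

theorem polb_eval {k n q₁ : ℕ} (q : (Fin k → ℕ) × (Fin (n + 1) → ℕ))
    (hb : ∀ j, q.1 j ≤ q₁) {x : ℤ} (hx : x ∈ Finset.Icc (1 : ℤ) k) :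
    1 ≤ (polb k q).eval x ∧ (polb k q).eval x ≤ ((q₁ * (k * k ^ k) + 1 : ℕ) : ℤ) := by
  have hx' := Finset.mem_Icc.1 hx
  have h1 : (polb k q).eval x = (∑ j : Fin k, (q.1 j : ℤ) * x ^ (j : ℕ)) + 1 := by
    unfold polb cof
    rw [Polynomial.eval_add, Polynomial.eval_mul, base_eval hx, mul_zero, zero_add,
      Polynomial.eval_add, Polynomial.eval_C, Polynomial.eval_finsetSum]
    simp only [Polynomial.eval_mul, Polynomial.eval_C, Polynomial.eval_pow, Polynomial.eval_X]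
  rw [h1]
  have h2 : 0 ≤ ∑ j : Fin k, (q.1 j : ℤ) * x ^ (j : ℕ) :=
    Finset.sum_nonneg fun j _ => mul_nonneg (by positivity) (pow_nonneg (by omega) _)
  have h3 : ∑ j : Fin k, (q.1 j : ℤ) * x ^ (j : ℕ) ≤ (q₁ : ℤ) * (k * (k : ℤ) ^ k) := by
    calc ∑ j : Fin k, (q.1 j : ℤ) * x ^ (j : ℕ) ≤ ∑ _j : Fin k, (q₁ : ℤ) * (k : ℤ) ^ k := by
          refine Finset.sum_le_sum fun j _ => ?_
          refine mul_le_mul (by exact_mod_cast hb j) ?_ (pow_nonneg (by omega) _) (by positivity)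
          exact (pow_le_pow_left₀ (by omega) hx'.2 _).trans
            (pow_le_pow_right₀ (by omega) j.2.le)
      _ = _ := by
          rw [Finset.sum_const, Finset.card_univ, Fintype.card_fin, nsmul_eq_mul]
          ring
  constructor
  · linarith
  · push_cast
    linarith

/-- the lower bounds for the number of the polynomials with `k` small values -/
theorem lowerθ (n k : ℕ) (hk : 1 ≤ n + k) (θ : ℝ) (hθ : 0 ≤ θ) (hθ1 : θ ≤ 1) :
    ∃ (c : ℝ) (X₀ : ℕ), 0 < c ∧ ∀ X : ℕ, X₀ ≤ X → ∃ S : Finset (Polynomial ℤ),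
      (∀ f ∈ S, f.natDegree = n + k ∧ (∀ i, |f.coeff i| ≤ (X : ℤ)) ∧
        k ≤ {x : ℤ | f.eval x ≠ 0 ∧ |((f.eval x : ℤ) : ℝ)| ≤ (X : ℝ) ^ θ}.encard) ∧
      c * (X : ℝ) ^ ((n : ℝ) + 1 + k * θ) ≤ S.card := by
  classical
  obtain ⟨M, hM⟩ : ∃ M : ℕ, M = 2 * (k * k ^ k + 1) := ⟨_, rfl⟩
  obtain ⟨M₂, hM₂⟩ : ∃ M₂ : ℕ, M₂ = (n + 1) * (k + 1).factorial := ⟨_, rfl⟩
  have hM0 : 0 < M := by
    rw [hM]
    positivity
  have hM20 : 0 < M₂ := by
    rw [hM₂]
    positivity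
  have hMR : (0 : ℝ) < M := by exact_mod_cast hM0
  have hM2R : (0 : ℝ) < M₂ := by exact_mod_cast hM20
  refine ⟨(1 / (2 * (M : ℝ))) ^ k * (1 / (8 * (M₂ : ℝ))) ^ (n + 1), 8 * M₂, by positivity,
    fun X hX => ?_⟩
  have hX8 : 8 ≤ X := by omega
  have hXR : (1 : ℝ) ≤ X := by
    have : 1 ≤ X := by omega
    exact_mod_cast this
  have hX0 : (0 : ℝ) < X := by linarith
  obtain ⟨Q, hQ⟩ : ∃ Q : ℕ, Q = ⌊(X : ℝ) ^ θ⌋₊ := ⟨_, rfl⟩
  have hXθ : (1 : ℝ) ≤ (X : ℝ) ^ θ := Real.one_le_rpow hXR hθ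
  have hQ1 : 1 ≤ Q := by
    rw [hQ]
    exact Nat.le_floor (by rw [Nat.cast_one]; exact hXθ)
  have hQθ : (Q : ℝ) ≤ (X : ℝ) ^ θ := by
    rw [hQ]
    exact Nat.floor_le (by positivity)
  have hQθ' : (X : ℝ) ^ θ < Q + 1 := by
    rw [hQ]
    exact Nat.lt_floor_add_one _
  have hQX : Q ≤ X := by
    have h1 : (X : ℝ) ^ θ ≤ (X : ℝ) ^ (1 : ℝ) := Real.rpow_le_rpow_of_exponent_le hXR hθ1
    rw [Real.rpow_one] at h1
    exact_mod_cast hQθ.trans h1
  obtain ⟨q₁, hq₁⟩ : ∃ q₁ : ℕ, q₁ = (Q - 1) / M := ⟨_, rfl⟩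
  obtain ⟨q₂, hq₂⟩ : ∃ q₂ : ℕ, q₂ = X / (4 * M₂) := ⟨_, rfl⟩
  have hq₁M : q₁ * M ≤ Q - 1 := by
    rw [hq₁]
    exact Nat.div_mul_le_self _ _
  have hq₂M : q₂ * (4 * M₂) ≤ X := by
    rw [hq₂]
    exact Nat.div_mul_le_self _ _
  have hsz : q₂ * ((n + 1) * (k + 1).factorial) + (q₁ + 1) ≤ X := by
    rw [← hM₂]
    have h1 : q₂ * (4 * M₂) = 4 * (q₂ * M₂) := by ring
    have h2 : q₁ * M = 2 * (q₁ * (k * k ^ k)) + 2 * q₁ := by
      rw [hM]
      ring
    rw [h1] at hq₂M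
    rw [h2] at hq₁M
    generalize q₂ * M₂ = u at hq₂M ⊢
    generalize q₁ * (k * k ^ k) = v at hq₁M
    omega
  have hvl : q₁ * (k * k ^ k) + 1 ≤ Q := by
    have h2 : q₁ * M = 2 * (q₁ * (k * k ^ k)) + 2 * q₁ := by
      rw [hM]
      ring
    rw [h2] at hq₁M
    generalize q₁ * (k * k ^ k) = v at hq₁M ⊢
    omega
  have hmem : ∀ f ∈ ((Fintype.piFinset fun _ : Fin k => Finset.range (q₁ + 1)) ×ˢ
      (Fintype.piFinset fun _ : Fin (n + 1) => Finset.Icc 1 q₂)).image (polb k),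
      ∃ q : (Fin k → ℕ) × (Fin (n + 1) → ℕ), polb k q = f ∧ (∀ j, q.1 j ≤ q₁) ∧
      ∀ j, 1 ≤ q.2 j ∧ q.2 j ≤ q₂ := by
    intro f hf
    obtain ⟨q, hq, rfl⟩ := Finset.mem_image.1 hf
    obtain ⟨hq1, hq2⟩ := Finset.mem_product.1 hq
    refine ⟨q, rfl, fun j => ?_, fun j => Finset.mem_Icc.1 (Fintype.mem_piFinset.1 hq2 j)⟩
    have := Finset.mem_range.1 (Fintype.mem_piFinset.1 hq1 j)
    omega
  refine ⟨((Fintype.piFinset fun _ : Fin k => Finset.range (q₁ + 1)) ×ˢ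
      (Fintype.piFinset fun _ : Fin (n + 1) => Finset.Icc 1 q₂)).image (polb k), ?_, ?_⟩
  · intro f hf
    obtain ⟨q, rfl, hb, hc⟩ := hmem f hf
    refine ⟨polb_natDegree hk q (by have := (hc (Fin.last n)).1; omega),
      fun i => polb_coeff q hb (fun j => (hc j).2) hsz i, ?_⟩
    have h1 : ((Finset.Icc (1 : ℤ) k : Finset ℤ) : Set ℤ) ⊆
        {x : ℤ | (polb k q).eval x ≠ 0 ∧ |(((polb k q).eval x : ℤ) : ℝ)| ≤ (X : ℝ) ^ θ} := by
      intro x hx
      obtain ⟨h2, h3⟩ := polb_eval q hb (by exact_mod_cast hx : x ∈ Finset.Icc (1 : ℤ) k)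
      refine ⟨by omega, ?_⟩
      have h4 : (polb k q).eval x ≤ (Q : ℤ) := h3.trans (by exact_mod_cast hvl)
      have h5 : (((polb k q).eval x : ℤ) : ℝ) ≤ Q := by exact_mod_cast h4
      have h6 : (0 : ℝ) ≤ (((polb k q).eval x : ℤ) : ℝ) := by
        have : (0 : ℤ) ≤ (polb k q).eval x := by omega
        exact_mod_cast this
      rw [abs_of_nonneg h6]
      exact h5.trans hQθ
    refine le_trans (le_of_eq ?_) (Set.encard_le_encard h1)
    rw [Set.encard_coe_eq_coe_finsetCard, Int.card_Icc]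
    simp
  · rw [Finset.card_image_of_injective _ (polb_injective k n), Finset.card_product,
      Fintype.card_piFinset, Fintype.card_piFinset, Finset.prod_const, Finset.prod_const,
      Finset.card_univ, Finset.card_univ, Fintype.card_fin, Fintype.card_fin, Finset.card_range,
      Nat.card_Icc, Nat.add_sub_cancel]
    push_cast
    have h1 : 1 / (2 * (M : ℝ)) * (X : ℝ) ^ θ ≤ (q₁ : ℝ) + 1 := by
      have e1 : Q - 1 < ((Q - 1) / M + 1) * M := by
        have := Nat.lt_div_mul_add (a := Q - 1) hM0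
        rw [add_mul, one_mul]
        exact this
      rw [← hq₁] at e1
      have e2 : Q ≤ (q₁ + 1) * M := by
        generalize (q₁ + 1) * M = w at e1
        omega
      have e3 : (Q : ℝ) ≤ ((q₁ : ℝ) + 1) * M := by exact_mod_cast e2
      have e4 : (X : ℝ) ^ θ ≤ 2 * Q := by
        have : (1 : ℝ) ≤ Q := by exact_mod_cast hQ1
        linarith
      rw [one_div_mul_eq_div, div_le_iff₀ (by positivity)]
      nlinarith
    have h2 : 1 / (8 * (M₂ : ℝ)) * (X : ℝ) ≤ q₂ := by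
      have e1 : X < (X / (4 * M₂) + 1) * (4 * M₂) := by
        have := Nat.lt_div_mul_add (a := X) (b := 4 * M₂) (by omega)
        rw [add_mul, one_mul]
        exact this
      rw [← hq₂] at e1
      have e3 : (X : ℝ) < ((q₂ : ℝ) + 1) * (4 * M₂) := by exact_mod_cast e1
      have e4 : (8 : ℝ) * M₂ ≤ X := by exact_mod_cast hX
      rw [one_div_mul_eq_div, div_le_iff₀ (by positivity)]
      nlinarith
    have h3 : (X : ℝ) ^ ((n : ℝ) + 1 + k * θ) = ((X : ℝ) ^ θ) ^ k * (X : ℝ) ^ (n + 1) := by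
      rw [← Real.rpow_natCast ((X : ℝ) ^ θ), ← Real.rpow_mul hX0.le,
        ← Real.rpow_natCast (X : ℝ) (n + 1), ← Real.rpow_add hX0]
      congr 1
      push_cast
      ring
    rw [h3]
    calc (1 / (2 * (M : ℝ))) ^ k * (1 / (8 * (M₂ : ℝ))) ^ (n + 1) *
          (((X : ℝ) ^ θ) ^ k * (X : ℝ) ^ (n + 1))
        = (1 / (2 * (M : ℝ)) * (X : ℝ) ^ θ) ^ k * (1 / (8 * (M₂ : ℝ)) * (X : ℝ)) ^ (n + 1) := by
          rw [mul_pow, mul_pow]
          ring
      _ ≤ ((q₁ : ℝ) + 1) ^ k * (q₂ : ℝ) ^ (n + 1) :=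
          mul_le_mul (pow_le_pow_left₀ (by positivity) h1 _)
            (pow_le_pow_left₀ (by positivity) h2 _) (by positivity) (by positivity)

end Pool.Agent.H673.FB
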